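import Pool.Agent.Q292.TS.Stmts

namespace Q292.TS

open MeasureTheory Set Metric

noncomputable section

lemma conv_le_diam {K : Set ℝ} (hK : IsCompact K) (h0 : (0 : ℝ) ∈ K) {x : ℝ} (hx : x ∈ K) :
    |x| ≤ diam K := by
  have := dist_le_diam_of_mem hK.isBounded hx h0
  rwa [Real.dist_eq, sub_zero] at this

theorem conv_compact (K : ℕ → Set ℝ) (hK : Adm K) : IsCompact (SumSet K) := by
  obtain ⟨h1, h2⟩ := hK
  have hC : IsCompact (Set.pi univ K) := isCompact_univ_pi fun i => (h1 i).1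
  have hS : SumSet K = (fun x : ℕ → ℝ => ∑' j, x j) '' (Set.pi univ K) := by
    ext s
    constructor
    · rintro ⟨x, hx, hs⟩
      exact ⟨x, fun j _ => hx j, hs.tsum_eq⟩
    · rintro ⟨x, hx, rfl⟩
      refine ⟨x, fun j => hx j (mem_univ j), ?_⟩
      refine Summable.hasSum ?_
      refine Summable.of_norm_bounded h2 ?_
      intro j
      exact conv_le_diam (h1 j).1 (h1 j).2.1 (hx j (mem_univ j))
  rw [hS]
  refine hC.image_of_continuousOn ?_
  refine continuousOn_tsum (u := fun i => diam (K i)) ?_ h2 ?_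
  · intro i
    exact (continuous_apply i).continuousOn
  · intro j x hx
    exact conv_le_diam (h1 j).1 (h1 j).2.1 (hx j (mem_univ j))

theorem conv_nonempty (K : ℕ → Set ℝ) (hK : Adm K) : (SumSet K).Nonempty :=
  ⟨0, fun _ => 0, fun j => (hK.1 j).2.1, hasSum_zero⟩

theorem conv_perfect (K : ℕ → Set ℝ) (hK : Adm K) : Preperfect (SumSet K) := by
  obtain ⟨h1, h2⟩ := hK
  rintro s ⟨x, hx, hs⟩
  rw [accPt_iff_nhds]
  intro U hU
  obtain ⟨ε, hε, hεU⟩ := Metric.mem_nhds_iff.1 hU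
  obtain ⟨j, hj⟩ := ((h2.tendsto_atTop_zero).eventually (gt_mem_nhds hε)).exists
  -- another element of `K j`
  obtain ⟨y, hy, hyx⟩ : ∃ y ∈ K j, y ≠ x j := by
    by_contra hcon
    push Not at hcon
    have hsub : K j ⊆ {x j} := fun y hy => hcon y hy
    have : diam (K j) = 0 := diam_subsingleton (subsingleton_singleton.anti hsub)
    have := (h1 j).2.2.2
    linarith
  have hsum := hs.update j y
  have hd : |y - x j| ≤ diam (K j) := by
    have := dist_le_diam_of_mem (h1 j).1.isBounded hy (hx j)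
    rwa [Real.dist_eq] at this
  refine ⟨y - x j + s, ⟨hεU ?_, ⟨Function.update x j y, ?_, hsum⟩⟩, ?_⟩
  · rw [mem_ball, Real.dist_eq]
    have : y - x j + s - s = y - x j := by ring
    rw [this]
    exact lt_of_le_of_lt hd hj
  · intro i
    by_cases hij : i = j
    · subst hij; simpa using hy
    · rw [Function.update_of_ne hij]; exact hx i
  · intro h
    apply hyx
    linarith

theorem conv_transfer {X S : Set ℝ} (e : X ≃ₜ S) (hS : Preperfect S) : Preperfect X := by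
  intro x hx
  rw [accPt_iff_nhds]
  intro U hU
  have h1 : (Subtype.val ⁻¹' U : Set X) ∈ nhds (⟨x, hx⟩ : X) :=
    continuous_subtype_val.continuousAt.preimage_mem_nhds hU
  have h2 : (e.symm ⁻¹' (Subtype.val ⁻¹' U : Set X)) ∈ nhds (e ⟨x, hx⟩) := by
    refine e.symm.continuous.continuousAt.preimage_mem_nhds ?_
    rwa [e.symm_apply_apply]
  rw [nhds_subtype_eq_comap, Filter.mem_comap] at h2
  obtain ⟨W, hW, hWs⟩ := h2
  have h3 := hS (e ⟨x, hx⟩ : S).1 (e ⟨x, hx⟩ : S).2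
  rw [accPt_iff_nhds] at h3
  obtain ⟨y, ⟨hyW, hyS⟩, hne⟩ := h3 W hW
  have h4 : (⟨y, hyS⟩ : S) ∈ (e.symm ⁻¹' (Subtype.val ⁻¹' U : Set X)) := hWs hyW
  refine ⟨(e.symm ⟨y, hyS⟩ : X).1, ⟨h4, (e.symm ⟨y, hyS⟩ : X).2⟩, ?_⟩
  intro hcon
  apply hne
  have h5 : e.symm ⟨y, hyS⟩ = (⟨x, hx⟩ : X) := Subtype.ext hcon
  have h6 : (⟨y, hyS⟩ : S) = e ⟨x, hx⟩ := by
    rw [← h5, e.apply_symm_apply]
  exact congrArg Subtype.val h6

theorem Conv (X : Set ℝ) (K : ℕ → Set ℝ) (hK : Adm K) (e : X ≃ₜ SumSet K) :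
    IsCompact X ∧ X.Nonempty ∧ Preperfect X := by
  refine ⟨?_, ?_, conv_transfer e (conv_perfect K hK)⟩
  · have : CompactSpace (SumSet K) := isCompact_iff_compactSpace.1 (conv_compact K hK)
    have : CompactSpace X := e.symm.compactSpace
    exact isCompact_iff_compactSpace.2 this
  · obtain ⟨s, hs⟩ := conv_nonempty K hK
    exact ⟨(e.symm ⟨s, hs⟩ : X).1, (e.symm ⟨s, hs⟩ : X).2⟩

end

end Q292.TS
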