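import Mathlib

/-! MP_8027ba_an: blueprint. Prove `theorem X : TaskX` (file `Pool/Agent/Q292/TS/TaskX.lean`,
namespace `Q292.TS`). -/

namespace Q292.TS

open MeasureTheory Set Metric

noncomputable section

/-- subsum of `x_k, x_{k+1}, ...` -/
def sub (x : ℕ → ℝ) (k : ℕ) (e : ℕ → Bool) : ℝ := ∑' j, if e j then x (k + j) else 0

/-- all subsums of `x_k, x_{k+1}, ...` -/
def CS (x : ℕ → ℝ) (k : ℕ) : Set ℝ := range (sub x k)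

/-- fast decreasing positive sequence -/
def Fast (x : ℕ → ℝ) : Prop := (∀ n, 0 < x n) ∧ ∀ n, 32 * x (n + 1) ≤ x n

/-- translate -/
def tr (t : ℝ) (A : Set ℝ) : Set ℝ := (fun a => t + a) '' A

/-- the question's conditions on `K` -/
def Adm (K : ℕ → Set ℝ) : Prop :=
  (∀ i, IsCompact (K i) ∧ (0 : ℝ) ∈ K i ∧ K i ⊆ Ici 0 ∧ 0 < diam (K i)) ∧
    Summable (fun i => diam (K i))

/-- the set of sums -/
def SumSet (K : ℕ → Set ℝ) : Set ℝ := {s | ∃ x : ℕ → ℝ, (∀ j, x j ∈ K j) ∧ HasSum x s}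

/-- `X` is homeomorphic to some set of sums -/
def Occurs (X : Set ℝ) : Prop := ∃ K : ℕ → Set ℝ, Adm K ∧ Nonempty (X ≃ₜ SumSet K)

/-- basic facts on subsums -/
def TaskSub : Prop := ∀ x, Fast x → ∀ k,
  IsCompact (CS x k) ∧ (0 : ℝ) ∈ CS x k ∧ CS x k ⊆ Icc 0 (2 * x k) ∧
  CS x k = CS x (k + 1) ∪ tr (x k) (CS x (k + 1)) ∧
  Nonempty ((ℕ → Bool) ≃ₜ CS x k)

/-- hint: choose a point `c ∉ Q` in the open middle third of the hull `[min, max]`; both parts are nonempty, with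
diameter at most 2/3 of the old one; Mathlib: CantorScheme -/
def TaskCantor : Prop := ∀ Q : Set ℝ, IsCompact Q → Q.Nonempty → Preperfect Q →
  (∀ u v, u < v → ¬ Icc u v ⊆ Q) → Nonempty ((ℕ → Bool) ≃ₜ Q)

/-- no intervals at all: `K i = {0, 3^(-i)...}` i.e. `{0, x i}` for a fast `x` -/
def TaskNoInt : Prop := TaskSub → TaskCantor → ∀ X : Set ℝ, IsCompact X → X.Nonempty → Preperfect X →
  (∀ u v, u < v → ¬ Icc u v ⊆ X) → Occurs X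

/-- uniform lengths of intervals; hint: compactness, then replace `lam n` by the minimum of the first ones -/
def TaskLam : Prop := ∀ D : Set ℝ, IsCompact D → D ⊆ closure (interior D) →
  ∃ lam : ℕ → ℝ, Antitone lam ∧ (∀ n, 0 < lam n ∧ lam n ≤ 1) ∧
    ∀ n, ∀ d ∈ D, ∃ u v, Icc u v ⊆ D ∧ lam n ≤ v - u ∧ |u - d| < 1 / ((n : ℝ) + 1) ∧
      |v - d| < 1 / ((n : ℝ) + 1)

/-- heavy set at level `n`: points in an interval `⊆ D` of length at least `lam n` or in an open interval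
disjoint from `D` of length at least `1/(n+1)` -/
def Hv (D : Set ℝ) (lam : ℕ → ℝ) (n : ℕ) : Set ℝ :=
  {s | (∃ u v, s ∈ Icc u v ∧ Icc u v ⊆ D ∧ lam n ≤ v - u) ∨
    ∃ a b, s ∈ Ioo a b ∧ Disjoint (Ioo a b) D ∧ 1 / ((n : ℝ) + 1) ≤ b - a}

/-- the weights `c n` -/
def cw (lam : ℕ → ℝ) : ℕ → ℝ
  | 0 => 1
  | n + 1 => cw lam n * lam n / 64

/-- the map -/
def fD (D : Set ℝ) (lam : ℕ → ℝ) (a₀ : ℝ) (x : ℝ) : ℝ :=
  ∑' n, cw lam n * (volume (Hv D lam n ∩ Ioc a₀ x)).toReal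

/-- monotonicity and continuity (Lipschitz); hint: `measure_inter_add_diff` with the measurable `Ioc`, no
measurability of `Hv` needed; `x < y`: either `Icc x y ⊆ D` or a small open interval between is disjoint from
`D`; `lam n → 0` as `lam n ≤ 2/(n+1)` -/
def TaskMono : Prop := ∀ (D : Set ℝ) (lam : ℕ → ℝ) (a₀ b₀ : ℝ), IsCompact D → D.Nonempty →
  Antitone lam → (∀ n, 0 < lam n ∧ lam n ≤ 1) →
  (∀ n, ∀ d ∈ D, ∃ u v, Icc u v ⊆ D ∧ lam n ≤ v - u ∧ |u - d| < 1 / ((n : ℝ) + 1) ∧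
      |v - d| < 1 / ((n : ℝ) + 1)) →
  StrictMonoOn (fD D lam a₀) (Icc a₀ b₀) ∧ ContinuousOn (fD D lam a₀) (Icc a₀ b₀)

/-- long intervals near each point: with `[u,v]` of the hypothesis; if `v < d` take `s` in a heavy interval
`⊆ D`, `v ≤ s ≤ d`, nearly the last such point: between it and `d` the levels `m ≤ n` give nothing,
so `f d - f s ≤ 2 ∑_{m>n} cw m ≤ cw n * lam n / 16`. Length: `f v - f u ≥ cw n * (v - u)`. -/
def TaskLong : Prop := ∀ (D : Set ℝ) (lam : ℕ → ℝ) (a₀ b₀ : ℝ), IsCompact D → D.Nonempty →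
  D ⊆ Icc a₀ b₀ → Antitone lam → (∀ n, 0 < lam n ∧ lam n ≤ 1) →
  (∀ n, ∀ d ∈ D, ∃ u v, Icc u v ⊆ D ∧ lam n ≤ v - u ∧ |u - d| < 1 / ((n : ℝ) + 1) ∧
      |v - d| < 1 / ((n : ℝ) + 1)) →
  ∀ n, ∀ d ∈ D, ∃ u v s, Icc u v ⊆ D ∧ u ≤ v ∧ s ∈ Icc u v ∧
    cw lam n * lam n ≤ fD D lam a₀ v - fD D lam a₀ u ∧
    |fD D lam a₀ d - fD D lam a₀ s| ≤ cw lam n * lam n / 16

/-- summary for `D`; `x n = cw lam n * lam n / 4` -/
def HasF (D : Set ℝ) (a₀ b₀ : ℝ) (x : ℕ → ℝ) (f : ℝ → ℝ) : Prop :=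
  Fast x ∧ StrictMonoOn f (Icc a₀ b₀) ∧ ContinuousOn f (Icc a₀ b₀) ∧
    ∀ n, ∀ d ∈ D, ∃ u v s, Icc u v ⊆ D ∧ u ≤ v ∧ s ∈ Icc u v ∧ 4 * x n ≤ f v - f u ∧
      |f d - f s| ≤ x n / 4

def TaskF : Prop := TaskLam → TaskMono → TaskLong → ∀ (D : Set ℝ) (a₀ b₀ : ℝ), IsCompact D →
  D.Nonempty → D ⊆ Icc a₀ b₀ → D ⊆ closure (interior D) → ∃ x f, HasF D a₀ b₀ x f

/-- one step up: `t' = t` or `t' = t - x k` -/
def TaskUp : Prop := TaskSub → ∀ (x : ℕ → ℝ) (X' : Set ℝ) (k : ℕ) (t y u v s : ℝ), Fast x →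
  tr t (CS x (k + 1)) ⊆ X' → y ∈ tr t (CS x (k + 1)) → Icc u v ⊆ X' → 4 * x k ≤ v - u →
  s ∈ Icc u v → |y - s| ≤ x k / 2 → ∃ t', tr t' (CS x k) ⊆ X' ∧ y ∈ tr t' (CS x k)

/-- from `X' = K + CS x 0` to a set of sums: `K 0 = K - min`, `K (i+1) = {0, x i}`. `K = {t | tr t (CS x 0) ⊆ X'}`
is compact. `hd` says that the union of the translates of `CS x 0` in `X'` is dense. -/
def TaskFinish : Prop := TaskSub → ∀ (X X' : Set ℝ) (x : ℕ → ℝ) (u v : ℝ), Fast x → IsCompact X' →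
  Nonempty (X ≃ₜ X') → Icc u v ⊆ X' → 4 * x 0 ≤ v - u →
  (∀ y ∈ X', ∀ ε > 0, ∃ y' t, |y - y'| < ε ∧ y' ∈ tr t (CS x 0) ∧ tr t (CS x 0) ⊆ X') → Occurs X

/-- the rest is a union of small pieces, clopen in `X`; hint: for `x ∈ X \ D` there are rational `r < x < s` not
in `X` (closed, no intervals near `x`) with `s - r ≤ infDist x D / 2`; enumerate the pairs, `disjointed` -/
def TaskPieces : Prop := ∀ X : Set ℝ, IsCompact X → (closure (interior X)).Nonempty →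
  ∃ V : ℕ → Set ℝ, X \ closure (interior X) = ⋃ i, V i ∧ Pairwise (fun i j => Disjoint (V i) (V j)) ∧
    (∀ i, IsCompact (V i)) ∧ (∀ i, ∃ U, IsOpen U ∧ V i = X ∩ U) ∧
    ∀ i, ∀ y ∈ V i, ∀ z ∈ V i, |y - z| ≤ infDist y (closure (interior X))

/-- places for the pieces: `d i` nearest to `q i`, `k` injective and large, the translate lies in the part between
`f (d i)` and `f (q i)`, at the distance between `x (k i) / 2` and `3 * x (k i)` from `f (d i)` -/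
def TaskPlace : Prop := TaskSub → ∀ (D : Set ℝ) (a₀ b₀ : ℝ) (x : ℕ → ℝ) (f : ℝ → ℝ) (q : ℕ → ℝ),
  HasF D a₀ b₀ x f → IsCompact D → D.Nonempty → D ⊆ Icc a₀ b₀ → (∀ i, q i ∈ Icc a₀ b₀ ∧ q i ∉ D) →
  ∃ (d : ℕ → ℝ) (k : ℕ → ℕ) (t : ℕ → ℝ), (∀ i, d i ∈ D ∧ |q i - d i| = infDist (q i) D) ∧
    (∀ i, 0 < k i ∧ ∀ y ∈ tr (t i) (CS x (k i)), |y - f (d i)| ≤ 3 * x (k i) ∧
      |y - f (d i)| ≤ |f (q i) - f (d i)|) ∧
    (∀ i, Disjoint (tr (t i) (CS x (k i))) (f '' D)) ∧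
    Pairwise (fun i j => Disjoint (tr (t i) (CS x (k i))) (tr (t j) (CS x (k j))))

/-- gluing: `h = f` on `D`, `h =` the given homeomorphism on `V i`; at `x ∈ D`, `y ∈ V i`:
`|h y - f x| ≤ |f (q i) - f (d i)| + |f (d i) - f x|` and `q i`, `d i` are within `4 |y - x|` of `x`;
`X'` is the (compact) image -/
def TaskGlue : Prop := ∀ (X D : Set ℝ) (V Q' : ℕ → Set ℝ) (f : ℝ → ℝ) (a₀ b₀ : ℝ) (q d : ℕ → ℝ),
  IsCompact X → X ⊆ Icc a₀ b₀ → IsCompact D → D ⊆ X → D.Nonempty → X \ D = ⋃ i, V i →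
  Pairwise (fun i j => Disjoint (V i) (V j)) → (∀ i, IsCompact (V i)) →
  (∀ i, ∃ U, IsOpen U ∧ V i = X ∩ U) → (∀ i, ∀ y ∈ V i, ∀ z ∈ V i, |y - z| ≤ infDist y D) →
  StrictMonoOn f (Icc a₀ b₀) → ContinuousOn f (Icc a₀ b₀) →
  (∀ i, (V i).Nonempty → q i ∈ V i ∧ d i ∈ D ∧ |q i - d i| = infDist (q i) D ∧
    Nonempty (V i ≃ₜ Q' i) ∧ (∀ y ∈ Q' i, |y - f (d i)| ≤ |f (q i) - f (d i)|) ∧
    Disjoint (Q' i) (f '' D)) →
  Pairwise (fun i j => Disjoint (Q' i) (Q' j)) →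
  ∃ X' : Set ℝ, IsCompact X' ∧ Nonempty (X ≃ₜ X') ∧
    X' = f '' D ∪ ⋃ i, {y | (V i).Nonempty ∧ y ∈ Q' i}

/-- climbing up: if there are long intervals near `y` at all levels `< k` -/
def TaskClimb : Prop := TaskSub → TaskUp → ∀ (x : ℕ → ℝ) (X' : Set ℝ) (k : ℕ) (t y : ℝ), Fast x →
  tr t (CS x k) ⊆ X' → y ∈ tr t (CS x k) →
  (∀ n < k, ∃ u v s, Icc u v ⊆ X' ∧ 4 * x n ≤ v - u ∧ s ∈ Icc u v ∧ |y - s| ≤ x n / 2) →
  ∃ t', tr t' (CS x 0) ⊆ X' ∧ y ∈ tr t' (CS x 0)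

/-- density of the translates: for `y ∈ f '' D` start in a long interval of level `N`; for `y` in a piece start with
the piece -/
def TaskDense : Prop := TaskSub → TaskClimb → TaskUp →
  ∀ (X' D : Set ℝ) (a₀ b₀ : ℝ) (x : ℕ → ℝ) (f : ℝ → ℝ) (P : Set ℝ) (d : ℝ → ℝ) (t : ℝ → ℝ) (k : ℝ → ℕ),
  HasF D a₀ b₀ x f → D ⊆ Icc a₀ b₀ → f '' D ⊆ X' →
  (∀ y ∈ P, d y ∈ D ∧ 0 < k y ∧ |y - f (d y)| ≤ 3 * x (k y) ∧ y ∈ tr (t y) (CS x (k y)) ∧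
    tr (t y) (CS x (k y)) ⊆ X') → X' = f '' D ∪ P →
  ∀ y ∈ X', ∀ ε > 0, ∃ y' t, |y - y'| < ε ∧ y' ∈ tr t (CS x 0) ∧ tr t (CS x 0) ⊆ X'

/-- final assembly -/
def TaskMain : Prop := TaskSub → TaskCantor → TaskNoInt → TaskF → TaskFinish → TaskPieces → TaskPlace →
  TaskGlue → TaskDense → TaskLam → TaskMono → TaskLong → TaskClimb → TaskUp →
  ∀ X : Set ℝ, IsCompact X → X.Nonempty → Preperfect X → Occurs X

end

end Q292.TS
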