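import Pool.Agent.Q292.TS.Stmts
import Pool.Agent.H812R3.CantorChar

open Set Filter Topology

namespace Q292.TS

theorem Cantor : TaskCantor := by
  intro Q hc hne hp hI
  have hgood : Pool.Agent.H812R3.CantorChar.Good Q := by
    refine ⟨hc, hne, ?_, ?_⟩
    · intro z hz ε hε
      have h1 := hp z hz
      rw [accPt_iff_nhds] at h1
      obtain ⟨y, hy, hyz⟩ := h1 (Metric.ball z ε) (Metric.ball_mem_nhds z hε)
      refine ⟨y, hy.2, hyz, ?_⟩
      have h2 := Metric.mem_ball.1 hy.1
      rwa [Real.dist_eq] at h2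
    · intro u v huv
      have h1 := hI (u + (v - u) / 3) (u + (v - u) / 2) (by linarith)
      rw [Set.not_subset] at h1
      obtain ⟨z, hz, hzQ⟩ := h1
      refine ⟨z, ?_, ?_, hzQ⟩
      · linarith [hz.1]
      · linarith [hz.2]
  obtain ⟨e⟩ := hgood.homeo
  exact ⟨(e.trans cantorSetHomeomorphNatToBool).symm⟩

end Q292.TS
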