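import Pool.Agent.Q292.TS.Stmts

namespace Q292.TS

open MeasureTheory Set Metric

theorem Climb : TaskClimb := by
  intro hSub hUp x X' k t y hx
  induction k generalizing t with
  | zero => intro h1 h2 _; exact ⟨t, h1, h2⟩
  | succ k ih =>
    intro h1 h2 h3
    obtain ⟨u, v, s, huv, h4, hs, hy⟩ := h3 k (Nat.lt_succ_self k)
    obtain ⟨t', h5, h6⟩ := hUp hSub x X' k t y u v s hx h1 h2 huv h4 hs hy
    exact ih t' h5 h6 (fun n hn => h3 n (Nat.lt_succ_of_lt hn))

end Q292.TS
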