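import Pool.Agent.Q292.TS.Stmts

namespace Q292.TS

open MeasureTheory Set Metric

private theorem fast_anti {x : ℕ → ℝ} (hx : Fast x) : Antitone x := by
  apply antitone_nat_of_succ_le
  intro n
  have h1 := hx.1 (n + 1)
  have h2 := hx.2 n
  linarith

private theorem fast_lt {x : ℕ → ℝ} (hx : Fast x) {n k : ℕ} (h : n < k) : 32 * x k ≤ x n := by
  have h1 : x k ≤ x (n + 1) := fast_anti hx h
  have h2 := hx.2 n
  linarith

private theorem fast_pow {x : ℕ → ℝ} (hx : Fast x) (n : ℕ) : x n ≤ x 0 * (1 / 32) ^ n := by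
  induction n with
  | zero => simp
  | succ n ih =>
    have h2 := hx.2 n
    rw [pow_succ]
    linarith

private theorem fast_small {x : ℕ → ℝ} (hx : Fast x) {ε : ℝ} (hε : 0 < ε) :
    ∃ N, 3 * x N < ε := by
  have h0 := hx.1 0
  obtain ⟨N, hN⟩ := exists_pow_lt_of_lt_one (show (0 : ℝ) < ε / (3 * x 0) by positivity)
    (show (1 / 32 : ℝ) < 1 by norm_num)
  refine ⟨N, ?_⟩
  have h1 := fast_pow hx N
  have h2 : 3 * x 0 * (1 / 32) ^ N < 3 * x 0 * (ε / (3 * x 0)) :=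
    mul_lt_mul_of_pos_left hN (by positivity)
  have h3 : 3 * x 0 * (ε / (3 * x 0)) = ε := by
    field_simp
  linarith

private theorem near {X' D : Set ℝ} {a₀ b₀ : ℝ} {x : ℕ → ℝ} {f : ℝ → ℝ}
    (hF : HasF D a₀ b₀ x f) (hD : D ⊆ Icc a₀ b₀) (hX : f '' D ⊆ X') {d : ℝ} (hd : d ∈ D)
    (n : ℕ) : ∃ u v s, Icc u v ⊆ X' ∧ 4 * x n ≤ v - u ∧ s ∈ Icc u v ∧ |f d - s| ≤ x n / 4 := by
  obtain ⟨hfast, hmono, hcont, hlong⟩ := hF
  obtain ⟨u, v, s, huv, huv', hs, hlen, hsd⟩ := hlong n d hd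
  have hsub : Icc u v ⊆ Icc a₀ b₀ := huv.trans hD
  refine ⟨f u, f v, f s, ?_, hlen, ?_, hsd⟩
  · refine (intermediate_value_Icc huv' (hcont.mono hsub)).trans ?_
    exact (image_mono huv).trans hX
  · have hu : u ∈ Icc a₀ b₀ := hsub (left_mem_Icc.2 huv')
    have hv : v ∈ Icc a₀ b₀ := hsub (right_mem_Icc.2 huv')
    exact ⟨hmono.monotoneOn hu (hsub hs) hs.1, hmono.monotoneOn (hsub hs) hv hs.2⟩

theorem Dense : TaskDense := by
  intro hSub hClimb hUp X' D a₀ b₀ x f P d t k hF hD hfX hP hX' y hy ε hε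
  have hfast : Fast x := hF.1
  have climb := hClimb hSub hUp
  rw [hX'] at hy
  rcases hy with hy | hy
  · obtain ⟨d0, hd0, rfl⟩ := hy
    obtain ⟨N, hN⟩ := fast_small hfast hε
    obtain ⟨u, v, s, huv, hlen, hs, hds⟩ := near hF hD hfX hd0 N
    obtain ⟨_, h0, hIcc, _, _⟩ := hSub x hfast N
    have hxN := hfast.1 N
    have hex : ∃ t0 y', y' ∈ tr t0 (CS x N) ∧ tr t0 (CS x N) ⊆ X' ∧
        |f d0 - y'| ≤ 9 / 4 * x N := by
      by_cases hcase : s + 2 * x N ≤ v
      · refine ⟨s, s, ⟨0, h0, by simp⟩, ?_, by linarith⟩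
        rintro _ ⟨a, ha, rfl⟩
        apply huv
        have := hIcc ha
        simp only [mem_Icc] at this hs ⊢
        constructor <;> linarith
      · push Not at hcase
        refine ⟨s - 2 * x N, s - 2 * x N, ⟨0, h0, by simp⟩, ?_, ?_⟩
        · rintro _ ⟨a, ha, rfl⟩
          apply huv
          have := hIcc ha
          simp only [mem_Icc] at this hs ⊢
          constructor <;> linarith
        · rw [abs_le] at hds ⊢
          constructor <;> linarith [hds.1, hds.2]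
    obtain ⟨t0, y', hy', htX, hyy⟩ := hex
    obtain ⟨t', ht', hy''⟩ := climb x X' N t0 y' hfast htX hy' (by
      intro n hn
      obtain ⟨u1, v1, s1, h1, h2, h3, h4⟩ := near hF hD hfX hd0 n
      refine ⟨u1, v1, s1, h1, h2, h3, ?_⟩
      have h5 := fast_lt hfast hn
      rw [abs_le] at h4 hyy ⊢
      constructor <;> linarith [h4.1, h4.2, hyy.1, hyy.2])
    exact ⟨y', t', by linarith, hy'', ht'⟩
  · obtain ⟨hdy, hk, hdist, hmem, hsub⟩ := hP y hy
    obtain ⟨t', ht', hy''⟩ := climb x X' (k y) (t y) y hfast hsub hmem (by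
      intro n hn
      obtain ⟨u1, v1, s1, h1, h2, h3, h4⟩ := near hF hD hfX hdy n
      refine ⟨u1, v1, s1, h1, h2, h3, ?_⟩
      have h5 := fast_lt hfast hn
      have h6 := hfast.1 (k y)
      have h7 := hfast.1 n
      rw [abs_le] at h4 hdist ⊢
      constructor <;> linarith [h4.1, h4.2, hdist.1, hdist.2])
    exact ⟨y, t', by simpa using hε, hy'', ht'⟩

end Q292.TS
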