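import Pool.Agent.Q292.TS.Stmts

namespace Q292.TS

open MeasureTheory Set Metric

theorem cw_pos {lam : ℕ → ℝ} (h : ∀ n, 0 < lam n ∧ lam n ≤ 1) : ∀ n, 0 < cw lam n := by
  intro n
  induction n with
  | zero => simp [cw]
  | succ n ih =>
    have := (h n).1
    simp only [cw]
    positivity

theorem F : TaskF := by
  intro hLam hMono hLong D a₀ b₀ hD hne hsub hcl
  obtain ⟨lam, hanti, hlam, hint⟩ := hLam D hD hcl
  obtain ⟨h1, h2⟩ := hMono D lam a₀ b₀ hD hne hanti hlam hint
  have h3 := hLong D lam a₀ b₀ hD hne hsub hanti hlam hint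
  refine ⟨fun n => cw lam n * lam n / 4, fD D lam a₀, ⟨?_, ?_⟩, h1, h2, ?_⟩
  · intro n
    have := (hlam n).1
    have := cw_pos hlam n
    positivity
  · intro n
    have ha := (hlam n).1
    have hb := cw_pos hlam n
    have hc := (hlam (n + 1)).2
    have hc' := (hlam (n + 1)).1
    have hp : 0 < cw lam n * lam n := by positivity
    show 32 * (cw lam (n + 1) * lam (n + 1) / 4) ≤ cw lam n * lam n / 4
    simp only [cw]
    nlinarith [mul_le_mul_of_nonneg_left hc hp.le]
  · intro n d hd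
    obtain ⟨u, v, s, k1, k2, k3, k4, k5⟩ := h3 n d hd
    refine ⟨u, v, s, k1, k2, k3, ?_, ?_⟩
    · show 4 * (cw lam n * lam n / 4) ≤ _
      linarith
    · show _ ≤ cw lam n * lam n / 4 / 4
      linarith

end Q292.TS
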