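import Pool.Agent.Q292.TS.Stmts

set_option autoImplicit false

namespace Q292.TS

open MeasureTheory Set Metric

noncomputable section

private theorem fast_le {x : ℕ → ℝ} (hx : Fast x) (n : ℕ) : x n ≤ x 0 * (1 / 32) ^ n := by
  induction n with
  | zero => simp
  | succ n ih =>
    have h1 := hx.2 n
    rw [pow_succ]
    linarith

private theorem fast_summable {x : ℕ → ℝ} (hx : Fast x) : Summable x :=
  Summable.of_nonneg_of_le (fun n => (hx.1 n).le) (fast_le hx)
    ((summable_geometric_of_lt_one (by norm_num) (by norm_num)).mul_left _)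

/-- the sets -/
private def KF (K : Set ℝ) (m : ℝ) (x : ℕ → ℝ) : ℕ → Set ℝ
  | 0 => {a | a + m ∈ K}
  | i + 1 => {0, x i}

private theorem mem_sumset {K : Set ℝ} {m : ℝ} {x : ℕ → ℝ} (hx : Fast x) (s : ℝ) :
    s ∈ SumSet (KF K m x) ↔ ∃ t ∈ K, ∃ c ∈ CS x 0, s + m = t + c := by
  classical
  constructor
  · rintro ⟨ξ, hξ, hs⟩
    have h0 : ξ 0 + m ∈ K := hξ 0
    have h1 : ∀ j, ξ (j + 1) = if (decide (ξ (j + 1) ≠ 0)) = true then x (0 + j) else 0 := by
      intro j
      have h2 : ξ (j + 1) = 0 ∨ ξ (j + 1) = x j := hξ (j + 1)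
      by_cases h3 : ξ (j + 1) = 0
      · simp [h3]
      · rcases h2 with h2 | h2
        · exact absurd h2 h3
        · rw [if_pos (by simpa using h3), zero_add]
          exact h2
    refine ⟨ξ 0 + m, h0, sub x 0 (fun j => decide (ξ (j + 1) ≠ 0)), ⟨_, rfl⟩, ?_⟩
    have h2 : sub x 0 (fun j => decide (ξ (j + 1) ≠ 0)) = ∑' j, ξ (j + 1) := by
      unfold sub
      exact tsum_congr fun j => (h1 j).symm
    rw [h2, ← hs.tsum_eq, hs.summable.tsum_eq_zero_add]
    ring
  · rintro ⟨t, ht, c, ⟨e, rfl⟩, hs⟩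
    let ξ : ℕ → ℝ := fun i => match i with
      | 0 => t - m
      | j + 1 => if e j then x (0 + j) else 0
    have hsum1 : Summable (fun j => ξ (j + 1)) := by
      refine Summable.of_nonneg_of_le (fun j => ?_) (fun j => ?_) (fast_summable hx)
      · show (0 : ℝ) ≤ if e j then x (0 + j) else 0
        split_ifs
        · exact (hx.1 _).le
        · exact le_rfl
      · show (if e j then x (0 + j) else 0) ≤ x j
        split_ifs
        · rw [zero_add]
        · exact (hx.1 _).le
    have hsum : Summable ξ := (summable_nat_add_iff 1).1 hsum1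
    refine ⟨ξ, ?_, ?_⟩
    · intro j
      cases j with
      | zero =>
        show t - m + m ∈ K
        rw [sub_add_cancel]
        exact ht
      | succ j =>
        show (if e j then x (0 + j) else 0) ∈ ({0, x j} : Set ℝ)
        split_ifs
        · rw [zero_add]; right; rfl
        · left; rfl
    · have h3 : ∑' i, ξ i = s := by
        rw [hsum.tsum_eq_zero_add]
        show t - m + sub x 0 e = s
        linarith
      rw [← h3]
      exact hsum.hasSum

theorem Finish : TaskFinish := by
  intro hSub X X' x u v hx hX' hXX' huv hlen hdense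
  obtain ⟨φ⟩ := hXX'
  obtain ⟨hCc, hC0, hCI, -, -⟩ := hSub x hx 0
  set K : Set ℝ := {t | tr t (CS x 0) ⊆ X'} with hK
  have hKX : K ⊆ X' := by
    intro t ht
    have := ht ⟨0, hC0, rfl⟩
    simpa using this
  have hx0 := hx.1 0
  -- `[u, u + 2 x 0]` is contained in `K`
  have hKuv : ∀ t, u ≤ t → t ≤ u + 2 * x 0 → t ∈ K := by
    rintro t h1 h2 _ ⟨c, hc, rfl⟩
    obtain ⟨h3, h4⟩ := hCI hc
    exact huv ⟨by show u ≤ t + c; linarith, by show t + c ≤ v; linarith⟩
  have hKclosed : IsClosed K := by
    have : K = ⋂ c ∈ CS x 0, (fun t : ℝ => t + c) ⁻¹' X' := by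
      ext t
      simp only [hK, mem_setOf_eq, mem_iInter, mem_preimage, tr, image_subset_iff]
      exact Iff.rfl
    rw [this]
    exact isClosed_biInter fun c _ => hX'.isClosed.preimage (by fun_prop)
  have hKc : IsCompact K := hX'.of_isClosed_subset hKclosed hKX
  have hKu : u ∈ K := hKuv u le_rfl (by linarith)
  have hKn : K.Nonempty := ⟨u, hKu⟩
  -- the minimum
  obtain ⟨m, hm⟩ := hKc.exists_isLeast hKn
  -- `X' = K + CS`
  have hsum : ∀ y, y ∈ X' ↔ ∃ t ∈ K, ∃ c ∈ CS x 0, y = t + c := by
    intro y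
    constructor
    · intro hy
      have hcl : IsClosed ((fun p : ℝ × ℝ => p.1 + p.2) '' (K ×ˢ CS x 0)) :=
        ((hKc.prod hCc).image (by fun_prop)).isClosed
      have hmem : y ∈ closure ((fun p : ℝ × ℝ => p.1 + p.2) '' (K ×ˢ CS x 0)) := by
        rw [Metric.mem_closure_iff]
        intro ε hε
        obtain ⟨y', t, h1, ⟨c, hc, h2⟩, h3⟩ := hdense y hy ε hε
        refine ⟨y', ⟨(t, c), ⟨h3, hc⟩, h2⟩, ?_⟩
        rw [Real.dist_eq]
        exact h1
      rw [hcl.closure_eq] at hmem
      obtain ⟨⟨t, c⟩, ⟨ht, hc⟩, h⟩ := hmem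
      exact ⟨t, ht, c, hc, h.symm⟩
    · rintro ⟨t, ht, c, hc, rfl⟩
      exact ht ⟨c, hc, rfl⟩
  have hset : SumSet (KF K m x) = (fun y => y + -m) '' X' := by
    ext s
    rw [mem_sumset hx]
    constructor
    · intro h
      exact ⟨s + m, (hsum _).2 h, by ring⟩
    · rintro ⟨y, hy, rfl⟩
      obtain ⟨t, ht, c, hc, h⟩ := (hsum y).1 hy
      exact ⟨t, ht, c, hc, by rw [← h]; ring⟩
  have hdiamS : ∀ i, diam (KF K m x (i + 1)) = x i := by
    intro i
    show diam ({0, x i} : Set ℝ) = x i
    rw [Metric.diam_pair, Real.dist_eq, zero_sub, abs_neg, abs_of_pos (hx.1 i)]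
  refine ⟨KF K m x, ⟨?_, ?_⟩, ⟨(φ.trans ((Homeomorph.addRight (-m)).image X')).trans
    (Homeomorph.setCongr hset.symm)⟩⟩
  · intro i
    cases i with
    | zero =>
      have h1 : KF K m x 0 = (fun a => a + m) ⁻¹' K := rfl
      have h2 : IsCompact (KF K m x 0) := by
        rw [h1]
        exact (Homeomorph.addRight m).isCompact_preimage.2 hKc
      refine ⟨h2, ?_, ?_, ?_⟩
      · show 0 + m ∈ K
        rw [zero_add]; exact hm.1
      · intro a ha
        have := hm.2 ha
        show 0 ≤ a
        linarith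
      · have ha : u - m ∈ KF K m x 0 := by
          show u - m + m ∈ K
          rw [sub_add_cancel]; exact hKu
        have hb : u + x 0 - m ∈ KF K m x 0 := by
          show u + x 0 - m + m ∈ K
          rw [sub_add_cancel]
          exact hKuv _ (by linarith) (by linarith)
        have h3 := Metric.dist_le_diam_of_mem h2.isBounded ha hb
        rw [Real.dist_eq] at h3
        have h4 : |u - m - (u + x 0 - m)| = x 0 := by
          rw [show u - m - (u + x 0 - m) = -x 0 by ring, abs_neg, abs_of_pos hx0]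
        linarith
    | succ i =>
      refine ⟨?_, ?_, ?_, ?_⟩
      · show IsCompact ({0, x i} : Set ℝ)
        exact (Set.toFinite _).isCompact
      · show (0 : ℝ) ∈ ({0, x i} : Set ℝ)
        left; rfl
      · intro a ha
        have ha' : a = 0 ∨ a = x i := ha
        show 0 ≤ a
        rcases ha' with rfl | rfl
        · exact le_rfl
        · exact (hx.1 i).le
      · rw [hdiamS i]
        exact hx.1 i
  · rw [← summable_nat_add_iff 1]
    simp_rw [hdiamS]
    exact fast_summable hx

end

end Q292.TS
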