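import Pool.Agent.Q292.TS.Stmts

/-! Gluing the homeomorphism (blueprint lemma for `MP_8027ba_an`). -/

namespace Q292.TS

open MeasureTheory Set Metric Topology

/-- a homeomorphism of subsets as a map of the line -/
noncomputable def gmapG {A B : Set ℝ} (e : A ≃ₜ B) (x : ℝ) : ℝ := by
  classical exact if hx : x ∈ A then (e ⟨x, hx⟩ : ℝ) else 0

lemma gmapG_of_mem {A B : Set ℝ} (e : A ≃ₜ B) {x : ℝ} (hx : x ∈ A) :
    gmapG e x = (e ⟨x, hx⟩ : ℝ) := by
  unfold gmapG; rw [dif_pos hx]

lemma gmapG_cont {A B : Set ℝ} (e : A ≃ₜ B) : ContinuousOn (gmapG e) A := by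
  rw [continuousOn_iff_continuous_domRestrict]
  have : A.domRestrict (gmapG e) = fun a => ((e a : B) : ℝ) := by
    funext a
    exact gmapG_of_mem e a.2
  rw [this]
  exact continuous_subtype_val.comp e.continuous

theorem Glue : TaskGlue := by
  classical
  intro X D V Q' f a₀ b₀ q d hX hXI hD hDX hDne hXD hVd hVc hVo hVdiam hfm hfc hpl hQd
  have e : ∀ i, (V i).Nonempty → (V i ≃ₜ Q' i) := fun i hi =>
    Classical.choice (hpl i hi).2.2.2.1
  set h : ℝ → ℝ := fun x => if x ∈ D then f x else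
    if hx : ∃ i, x ∈ V i then gmapG (e hx.choose ⟨x, hx.choose_spec⟩) x else 0 with hdef
  have hVX : ∀ i, V i ⊆ X \ D := fun i x hx => by
    rw [hXD]; exact mem_iUnion.mpr ⟨i, hx⟩
  have hhD : ∀ x ∈ D, h x = f x := fun x hx => by
    simp only [hdef]; rw [if_pos hx]
  have hhV : ∀ i x, ∀ hx : x ∈ V i, h x = gmapG (e i ⟨x, hx⟩) x := by
    intro i x hx
    have hnD : x ∉ D := (hVX i hx).2
    have hex : ∃ i, x ∈ V i := ⟨i, hx⟩
    simp only [hdef]
    rw [if_neg hnD, dif_pos hex]
    have hi : hex.choose = i := by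
      by_contra hne
      exact Set.disjoint_left.mp (hVd hne) hex.choose_spec hx
    have key : ∀ (j : ℕ) (hj : j = i) (hxj : x ∈ V j),
        gmapG (e j ⟨x, hxj⟩) x = gmapG (e i ⟨x, hx⟩) x := by
      intro j hj hxj
      subst hj
      rfl
    exact key _ hi hex.choose_spec
  have hhQ : ∀ i x, x ∈ V i → h x ∈ Q' i := by
    intro i x hx
    rw [hhV i x hx, gmapG_of_mem _ hx]
    exact Subtype.coe_prop _
  have hcase : ∀ x ∈ X, x ∈ D ∨ ∃ i, x ∈ V i := by
    intro x hx
    by_cases hxD : x ∈ D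
    · exact Or.inl hxD
    · right
      have : x ∈ ⋃ i, V i := by rw [← hXD]; exact ⟨hx, hxD⟩
      exact mem_iUnion.mp this
  -- continuity
  have hcont : ContinuousOn h X := by
    intro x hx
    rcases hcase x hx with hxD | ⟨i, hxi⟩
    · rw [Metric.continuousWithinAt_iff]
      intro ε hε
      obtain ⟨δ, hδ, hδ'⟩ := (Metric.continuousWithinAt_iff.mp (hfc x (hXI hx))) (ε / 3)
        (by positivity)
      refine ⟨δ / 4, by positivity, ?_⟩
      intro y hy hyx
      rw [hhD x hxD]
      rcases hcase y hy with hyD | ⟨i, hyi⟩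
      · rw [hhD y hyD]
        have := hδ' (hXI hy) (by linarith)
        linarith
      · obtain ⟨hq, hd, hqd, -, hQ, -⟩ := hpl i ⟨y, hyi⟩
        have h1 : |y - q i| ≤ infDist y D := hVdiam i y hyi (q i) hq
        have h2 : infDist y D ≤ dist y x := Metric.infDist_le_dist_of_mem hxD
        have h3 : infDist (q i) D ≤ dist (q i) x := Metric.infDist_le_dist_of_mem hxD
        rw [Real.dist_eq] at h2 h3 hyx
        have h4 : |q i - x| ≤ |y - q i| + |y - x| := by
          have := abs_sub_le (q i) y x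
          rw [abs_sub_comm (q i) y] at this
          exact this
        have h5 : |d i - x| ≤ |q i - d i| + |q i - x| := by
          have := abs_sub_le (d i) (q i) x
          rw [abs_sub_comm (d i) (q i)] at this
          exact this
        have h6 := hδ' (hXI (hVX i hq).1) (by rw [Real.dist_eq]; linarith)
        have h7 := hδ' (hXI (hDX hd)) (by rw [Real.dist_eq]; linarith)
        rw [Real.dist_eq] at h6 h7 ⊢
        have h8 := hQ (h y) (hhQ i y hyi)
        have h9 : |f (q i) - f (d i)| ≤ |f (q i) - f x| + |f (d i) - f x| := by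
          have := abs_sub_le (f (q i)) (f x) (f (d i))
          rw [abs_sub_comm (f x) (f (d i))] at this
          exact this
        have h10 := abs_sub_le (h y) (f (d i)) (f x)
        linarith
    · obtain ⟨U, hU, hVU⟩ := hVo i
      have hxU : x ∈ U := by rw [hVU] at hxi; exact hxi.2
      have h1 : ContinuousWithinAt (gmapG (e i ⟨x, hxi⟩)) (V i) x := gmapG_cont _ x hxi
      have h2 : ContinuousWithinAt (gmapG (e i ⟨x, hxi⟩)) X x := by
        have h1' : ContinuousWithinAt (gmapG (e i ⟨x, hxi⟩)) (X ∩ U) x :=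
          h1.mono (le_of_eq hVU.symm)
        exact (continuousWithinAt_inter (hU.mem_nhds hxU)).mp h1'
      refine h2.congr_of_eventuallyEq ?_ (hhV i x hxi)
      have h3 : U ∈ 𝓝[X] x := mem_nhdsWithin_of_mem_nhds (hU.mem_nhds hxU)
      filter_upwards [h3, self_mem_nhdsWithin] with y hyU hyX
      have hyV : y ∈ V i := by rw [hVU]; exact ⟨hyX, hyU⟩
      exact hhV i y hyV
  -- injectivity
  have hinj : InjOn h X := by
    intro x hx y hy hxy
    rcases hcase x hx with hxD | ⟨i, hxi⟩
    · rcases hcase y hy with hyD | ⟨j, hyj⟩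
      · rw [hhD x hxD, hhD y hyD] at hxy
        exact hfm.injOn (hXI hx) (hXI hy) hxy
      · exfalso
        have h1 := hhQ j y hyj
        rw [← hxy, hhD x hxD] at h1
        exact Set.disjoint_left.mp (hpl j ⟨y, hyj⟩).2.2.2.2.2 h1 ⟨x, hxD, rfl⟩
    · rcases hcase y hy with hyD | ⟨j, hyj⟩
      · exfalso
        have h1 := hhQ i x hxi
        rw [hxy, hhD y hyD] at h1
        exact Set.disjoint_left.mp (hpl i ⟨x, hxi⟩).2.2.2.2.2 h1 ⟨y, hyD, rfl⟩
      · by_cases hij : i = j
        · subst hij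
          rw [hhV i x hxi, hhV i y hyj, gmapG_of_mem _ hxi, gmapG_of_mem _ hyj] at hxy
          have := (e i ⟨x, hxi⟩).injective (Subtype.ext hxy)
          exact congrArg Subtype.val this
        · exfalso
          have h1 := hhQ i x hxi
          have h2 := hhQ j y hyj
          rw [hxy] at h1
          exact Set.disjoint_left.mp (hQd hij) h1 h2
  have : CompactSpace X := isCompact_iff_compactSpace.mp hX
  have hemb : IsClosedEmbedding (X.domRestrict h) :=
    (continuousOn_iff_continuous_domRestrict.mp hcont).isClosedEmbedding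
      (injOn_iff_injective.mp hinj)
  refine ⟨h '' X, hX.image_of_continuousOn hcont,
    ⟨hemb.isEmbedding.toHomeomorph.trans (Homeomorph.setCongr (Set.range_domRestrict h X))⟩, ?_⟩
  ext y
  constructor
  · rintro ⟨x, hx, rfl⟩
    rcases hcase x hx with hxD | ⟨i, hxi⟩
    · left
      exact ⟨x, hxD, (hhD x hxD).symm⟩
    · right
      exact mem_iUnion.mpr ⟨i, ⟨x, hxi⟩, hhQ i x hxi⟩
  · rintro (⟨x, hxD, rfl⟩ | hy)
    · exact ⟨x, hDX hxD, hhD x hxD⟩
    · obtain ⟨i, hne, hyQ⟩ := mem_iUnion.mp hy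
      set x := (e i hne).symm ⟨y, hyQ⟩ with hxdef
      refine ⟨x, (hVX i x.2).1, ?_⟩
      rw [hhV i x x.2, gmapG_of_mem _ x.2]
      have : (e i hne) x = ⟨y, hyQ⟩ := by rw [hxdef]; exact (e i hne).apply_symm_apply _
      have h2 : (e i ⟨(x : ℝ), x.2⟩) ⟨(x : ℝ), x.2⟩ = ⟨y, hyQ⟩ := this
      rw [h2]

end Q292.TS
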