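import Pool.Agent.Q292.TS.Stmts

set_option autoImplicit false

namespace Q292.TS

open MeasureTheory Set Metric Topology

private def Loc (D : Set ℝ) (r : ℝ) (s : Set ℝ) : Prop :=
  ∃ l : ℝ, 0 < l ∧ ∀ d ∈ s, ∃ u v, Icc u v ⊆ D ∧ l ≤ v - u ∧ |u - d| < r ∧ |v - d| < r

private theorem loc_all (D : Set ℝ) (hD : IsCompact D) (hc : D ⊆ closure (interior D)) (r : ℝ)
    (hr : 0 < r) : Loc D r D := by
  refine hD.induction_on (p := Loc D r) ⟨1, one_pos, fun d hd => absurd hd (by simp)⟩ ?_ ?_ ?_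
  · rintro s t hst ⟨l, hl, h⟩
    exact ⟨l, hl, fun d hd => h d (hst hd)⟩
  · rintro s t ⟨l, hl, h⟩ ⟨l', hl', h'⟩
    refine ⟨min l l', lt_min hl hl', ?_⟩
    rintro d (hd | hd)
    · obtain ⟨u, v, h1, h2, h3, h4⟩ := h d hd
      exact ⟨u, v, h1, (min_le_left _ _).trans h2, h3, h4⟩
    · obtain ⟨u, v, h1, h2, h3, h4⟩ := h' d hd
      exact ⟨u, v, h1, (min_le_right _ _).trans h2, h3, h4⟩
  · intro x hx
    obtain ⟨p, hp, hpx⟩ := Metric.mem_closure_iff.1 (hc hx) (r / 4) (by positivity)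
    obtain ⟨e, he, hball⟩ := Metric.isOpen_iff.1 isOpen_interior p hp
    have hmin : 0 < min e (r / 4) := lt_min he (by positivity)
    set δ : ℝ := min e (r / 4) / 2 with hδ
    have hδ0 : 0 < δ := by positivity
    have hδe : δ < e := by
      have := min_le_left e (r / 4)
      linarith
    have hδr : δ ≤ r / 8 := by
      have := min_le_right e (r / 4)
      linarith
    refine ⟨ball x (r / 4), mem_nhdsWithin_of_mem_nhds (ball_mem_nhds x (by positivity)), 2 * δ,
      by positivity, fun d hd => ⟨p - δ, p + δ, ?_, by linarith, ?_, ?_⟩⟩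
    · intro z hz
      apply interior_subset
      apply hball
      rw [mem_ball, Real.dist_eq, abs_lt]
      constructor <;> linarith [hz.1, hz.2]
    all_goals
      rw [mem_ball, Real.dist_eq, abs_lt] at hd
      rw [Real.dist_eq, abs_lt] at hpx
      rw [abs_lt]
      constructor <;> linarith [hd.1, hd.2, hpx.1, hpx.2]

theorem Lam : TaskLam := by
  intro D hD hc
  have H : ∀ n : ℕ, ∃ l : ℝ, 0 < l ∧ ∀ d ∈ D, ∃ u v, Icc u v ⊆ D ∧ l ≤ v - u ∧
      |u - d| < 1 / ((n : ℝ) + 1) ∧ |v - d| < 1 / ((n : ℝ) + 1) :=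
    fun n => loc_all D hD hc _ (by positivity)
  choose l hl h using H
  let lam : ℕ → ℝ := fun n => Nat.rec (min (l 0) 1) (fun n y => min y (l (n + 1))) n
  have h0 : lam 0 = min (l 0) 1 := rfl
  have hs : ∀ n, lam (n + 1) = min (lam n) (l (n + 1)) := fun n => rfl
  have hanti : Antitone lam := antitone_nat_of_succ_le fun n => by
    rw [hs]
    exact min_le_left _ _
  have hpos : ∀ n, 0 < lam n := by
    intro n
    induction n with
    | zero => rw [h0]; exact lt_min (hl 0) one_pos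
    | succ n ih => rw [hs]; exact lt_min ih (hl _)
  have hle : ∀ n, lam n ≤ l n := by
    intro n
    cases n with
    | zero => rw [h0]; exact min_le_left _ _
    | succ n => rw [hs]; exact min_le_right _ _
  refine ⟨lam, hanti, fun n => ⟨hpos n, (hanti (Nat.zero_le n)).trans ?_⟩, fun n d hd => ?_⟩
  · rw [h0]
    exact min_le_right _ _
  · obtain ⟨u, v, h1, h2, h3, h4⟩ := h n d hd
    exact ⟨u, v, h1, (hle n).trans h2, h3, h4⟩

end Q292.TS
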