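import Pool.Agent.Q292.TS.Stmts

set_option autoImplicit false

/-! # Long intervals near each point of `D` -/

namespace Q292.TS

open MeasureTheory Set Metric

namespace LongAux

theorem cw_pos {lam : ℕ → ℝ} (hl : ∀ n, 0 < lam n ∧ lam n ≤ 1) (n : ℕ) : 0 < cw lam n := by
  induction n with
  | zero => exact one_pos
  | succ n ih =>
    show 0 < cw lam n * lam n / 64
    have := mul_pos ih (hl n).1
    linarith

theorem cw_succ_le {lam : ℕ → ℝ} (hl : ∀ n, 0 < lam n ∧ lam n ≤ 1) (n : ℕ) :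
    cw lam (n + 1) ≤ cw lam n * (1 / 64) := by
  show cw lam n * lam n / 64 ≤ cw lam n * (1 / 64)
  have h := mul_le_of_le_one_right (cw_pos hl n).le (hl n).2
  linarith

theorem cw_add_le {lam : ℕ → ℝ} (hl : ∀ n, 0 < lam n ∧ lam n ≤ 1) (n j : ℕ) :
    cw lam (n + j) ≤ cw lam n * (1 / 64) ^ j := by
  induction j with
  | zero => simp
  | succ j ih =>
    have h := cw_succ_le hl (n + j)
    rw [pow_succ, ← mul_assoc]
    show cw lam (n + j + 1) ≤ _
    refine h.trans ?_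
    exact mul_le_mul_of_nonneg_right ih (by norm_num)

theorem cw_le {lam : ℕ → ℝ} (hl : ∀ n, 0 < lam n ∧ lam n ≤ 1) (j : ℕ) :
    cw lam j ≤ (1 / 64) ^ j := by
  have h := cw_add_le hl 0 j
  rw [zero_add] at h
  simpa [cw] using h

/-- the measure of the part of the heavy set in `(x, y]` -/
noncomputable def g (D : Set ℝ) (lam : ℕ → ℝ) (x y : ℝ) (m : ℕ) : ℝ :=
  (volume (Hv D lam m ∩ Ioc x y)).toReal

theorem g_nonneg (D : Set ℝ) (lam : ℕ → ℝ) (x y : ℝ) (m : ℕ) : 0 ≤ g D lam x y m :=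
  ENNReal.toReal_nonneg

theorem vol_ne_top (D : Set ℝ) (lam : ℕ → ℝ) (x y : ℝ) (m : ℕ) :
    volume (Hv D lam m ∩ Ioc x y) ≠ ⊤ :=
  ((measure_mono inter_subset_right).trans_lt measure_Ioc_lt_top).ne

theorem g_le (D : Set ℝ) (lam : ℕ → ℝ) {x y : ℝ} (h : x ≤ y) (m : ℕ) :
    g D lam x y m ≤ y - x := by
  have h1 : volume (Hv D lam m ∩ Ioc x y) ≤ volume (Ioc x y) := measure_mono inter_subset_right
  rw [Real.volume_Ioc] at h1
  exact ENNReal.toReal_le_of_le_ofReal (by linarith) h1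

theorem summable_g {D : Set ℝ} {lam : ℕ → ℝ} (hl : ∀ n, 0 < lam n ∧ lam n ≤ 1) {x y : ℝ}
    (h : x ≤ y) : Summable fun m => cw lam m * g D lam x y m := by
  refine Summable.of_nonneg_of_le (fun m => mul_nonneg (cw_pos hl m).le (g_nonneg _ _ _ _ _))
    (fun m => mul_le_mul (cw_le hl m) (g_le D lam h m) (g_nonneg _ _ _ _ _) (by positivity)) ?_
  exact (summable_geometric_of_lt_one (by norm_num) (by norm_num)).mul_right _

theorem g_add (D : Set ℝ) (lam : ℕ → ℝ) {a x y : ℝ} (h1 : a ≤ x) (h2 : x ≤ y) (m : ℕ) :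
    g D lam a y m = g D lam a x m + g D lam x y m := by
  unfold g
  have h := measure_inter_add_diff (μ := volume) (Hv D lam m ∩ Ioc a y)
    (measurableSet_Ioc (a := a) (b := x))
  have e1 : Hv D lam m ∩ Ioc a y ∩ Ioc a x = Hv D lam m ∩ Ioc a x := by
    ext p
    simp only [mem_inter_iff, mem_Ioc]
    constructor
    · rintro ⟨⟨h3, -⟩, h4⟩
      exact ⟨h3, h4⟩
    · rintro ⟨h3, h4⟩
      exact ⟨⟨h3, h4.1, h4.2.trans h2⟩, h4⟩
  have e2 : (Hv D lam m ∩ Ioc a y) \ Ioc a x = Hv D lam m ∩ Ioc x y := by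
    ext p
    simp only [mem_inter_iff, mem_diff, mem_Ioc, not_and, not_le]
    constructor
    · rintro ⟨⟨h3, h4⟩, h5⟩
      exact ⟨h3, h5 h4.1, h4.2⟩
    · rintro ⟨h3, h4⟩
      exact ⟨⟨h3, h1.trans_lt h4.1, h4.2⟩, fun _ => h4.1⟩
  rw [e1, e2] at h
  rw [← h, ENNReal.toReal_add (vol_ne_top _ _ _ _ _) (vol_ne_top _ _ _ _ _)]

theorem f_sub {D : Set ℝ} {lam : ℕ → ℝ} (hl : ∀ n, 0 < lam n ∧ lam n ≤ 1) {a x y : ℝ}
    (h1 : a ≤ x) (h2 : x ≤ y) :
    fD D lam a y - fD D lam a x = ∑' m, cw lam m * g D lam x y m := by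
  have e1 : fD D lam a y = ∑' m, cw lam m * g D lam a y m := rfl
  have e2 : fD D lam a x = ∑' m, cw lam m * g D lam a x m := rfl
  rw [e1, e2, ← (summable_g hl (h1.trans h2)).tsum_sub (summable_g hl h1)]
  refine tsum_congr fun m => ?_
  rw [g_add D lam h1 h2 m]
  ring

theorem f_mono {D : Set ℝ} {lam : ℕ → ℝ} (hl : ∀ n, 0 < lam n ∧ lam n ≤ 1) {a x y : ℝ}
    (h1 : a ≤ x) (h2 : x ≤ y) : 0 ≤ fD D lam a y - fD D lam a x := by
  rw [f_sub hl h1 h2]
  exact tsum_nonneg fun m => mul_nonneg (cw_pos hl m).le (g_nonneg _ _ _ _ _)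

theorem f_lip {D : Set ℝ} {lam : ℕ → ℝ} (hl : ∀ n, 0 < lam n ∧ lam n ≤ 1) {a x y : ℝ}
    (h1 : a ≤ x) (h2 : x ≤ y) : fD D lam a y - fD D lam a x ≤ 2 * (y - x) := by
  rw [f_sub hl h1 h2]
  have hs := (summable_geometric_of_lt_one (r := (1 / 64 : ℝ)) (by norm_num)
    (by norm_num)).mul_right (y - x)
  have h := (summable_g (D := D) hl h2).tsum_le_tsum (g := fun m => (1 / 64 : ℝ) ^ m * (y - x))
    (fun m => mul_le_mul (cw_le hl m) (g_le D lam h2 m) (g_nonneg _ _ _ _ _) (by positivity)) hs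
  rw [tsum_mul_right, tsum_geometric_of_lt_one (by norm_num) (by norm_num)] at h
  have h3 : (1 - 1 / 64 : ℝ)⁻¹ ≤ 2 := by norm_num
  have h4 := mul_le_mul_of_nonneg_right h3 (by linarith : (0 : ℝ) ≤ y - x)
  linarith

theorem f_long {D : Set ℝ} {lam : ℕ → ℝ} (hl : ∀ n, 0 < lam n ∧ lam n ≤ 1) {a u v : ℝ} {n : ℕ}
    (h1 : a ≤ u) (h2 : Icc u v ⊆ D) (h3 : lam n ≤ v - u) :
    cw lam n * lam n ≤ fD D lam a v - fD D lam a u := by
  have huv : u ≤ v := by
    have := (hl n).1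
    linarith
  rw [f_sub hl h1 huv]
  have h4 := (summable_g (D := D) hl huv).le_tsum n
    (fun m _ => mul_nonneg (cw_pos hl m).le (g_nonneg _ _ _ _ _))
  refine le_trans ?_ h4
  refine mul_le_mul_of_nonneg_left ?_ (cw_pos hl n).le
  have h5 : Hv D lam n ∩ Ioc u v = Ioc u v := by
    refine inter_eq_right.2 fun p hp => Or.inl ⟨u, v, ⟨hp.1.le, hp.2⟩, h2, h3⟩
  unfold g
  rw [h5, Real.volume_Ioc, ENNReal.toReal_ofReal (by linarith)]
  exact h3

/-- If the levels up to `n` give nothing between `x` and `y`, the increment is small. -/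
theorem f_tail {D : Set ℝ} {lam : ℕ → ℝ} (hl : ∀ n, 0 < lam n ∧ lam n ≤ 1) {a x y : ℝ} {n : ℕ}
    (h1 : a ≤ x) (h2 : x ≤ y) (h3 : y - x ≤ 1)
    (h4 : ∀ m ≤ n, Hv D lam m ∩ Ioo x y = ∅) :
    fD D lam a y - fD D lam a x ≤ cw lam n * lam n / 63 := by
  rw [f_sub hl h1 h2]
  have hz : ∀ m ≤ n, g D lam x y m = 0 := by
    intro m hm
    unfold g
    have h5 : Hv D lam m ∩ Ioc x y ⊆ {y} := by
      rintro p ⟨hp1, hp2⟩
      by_contra hne
      have hlt : p < y := lt_of_le_of_ne hp2.2 hne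
      have : p ∈ Hv D lam m ∩ Ioo x y := ⟨hp1, hp2.1, hlt⟩
      rw [h4 m hm] at this
      exact this
    have h6 : volume (Hv D lam m ∩ Ioc x y) = 0 :=
      le_antisymm ((measure_mono h5).trans (by simp)) (zero_le)
    rw [h6]
    rfl
  have hsum := summable_g (D := D) hl h2
  have h5 := hsum.sum_add_tsum_nat_add (n + 1)
  have h6 : ∑ i ∈ Finset.range (n + 1), cw lam i * g D lam x y i = 0 :=
    Finset.sum_eq_zero fun i hi => by
      rw [hz i (Nat.lt_succ_iff.1 (Finset.mem_range.1 hi)), mul_zero]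
  rw [h6, zero_add] at h5
  rw [← h5]
  have hs := (summable_geometric_of_lt_one (r := (1 / 64 : ℝ)) (by norm_num)
    (by norm_num)).mul_left (cw lam n * lam n / 64)
  have h7 := ((summable_nat_add_iff (n + 1)).2 hsum).tsum_le_tsum
    (g := fun j => cw lam n * lam n / 64 * (1 / 64 : ℝ) ^ j) (fun j => ?_) hs
  · rw [tsum_mul_left, tsum_geometric_of_lt_one (by norm_num) (by norm_num)] at h7
    have h8 : cw lam n * lam n / 64 * (1 - 1 / 64 : ℝ)⁻¹ = cw lam n * lam n / 63 := by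
      norm_num
      ring
    rwa [h8] at h7
  · have h9 : cw lam (j + (n + 1)) ≤ cw lam n * lam n / 64 * (1 / 64 : ℝ) ^ j := by
      have := cw_add_le hl (n + 1) j
      rwa [add_comm (n + 1) j] at this
    have h10 : g D lam x y (j + (n + 1)) ≤ 1 := (g_le D lam h2 _).trans h3
    show cw lam (j + (n + 1)) * g D lam x y (j + (n + 1)) ≤ _
    calc cw lam (j + (n + 1)) * g D lam x y (j + (n + 1))
        ≤ cw lam (j + (n + 1)) * 1 := mul_le_mul_of_nonneg_left h10 (cw_pos hl _).le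
      _ = cw lam (j + (n + 1)) := mul_one _
      _ ≤ _ := h9

/-- Between two near points of `D`, away from the heavy intervals of level `n`, there is nothing. -/
theorem empty {D : Set ℝ} {lam : ℕ → ℝ} (hanti : Antitone lam) {x y d₁ d₂ : ℝ} {n : ℕ}
    (hd₁ : d₁ ∈ D) (hd₂ : d₂ ∈ D) (h1 : d₁ ≤ x) (h2 : y ≤ d₂) (h3 : d₂ - d₁ < 1 / ((n : ℝ) + 1))
    (h4 : ∀ p ∈ Ioo x y, ∀ u v, p ∈ Icc u v → Icc u v ⊆ D → ¬ lam n ≤ v - u) :
    ∀ m ≤ n, Hv D lam m ∩ Ioo x y = ∅ := by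
  intro m hm
  rw [eq_empty_iff_forall_notMem]
  rintro p ⟨hp, hpx⟩
  rcases hp with ⟨u, v, h5, h6, h7⟩ | ⟨a, b, h5, h6, h7⟩
  · exact h4 p hpx u v h5 h6 ((hanti hm).trans h7)
  · have ha : d₁ ≤ a := by
      by_contra hcon
      push Not at hcon
      exact Set.disjoint_left.1 h6 ⟨hcon, by linarith [h5.2, hpx.1]⟩ hd₁
    have hb : b ≤ d₂ := by
      by_contra hcon
      push Not at hcon
      exact Set.disjoint_left.1 h6 ⟨by linarith [h5.1, hpx.2], hcon⟩ hd₂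
    have h8 : (1 : ℝ) / ((n : ℝ) + 1) ≤ 1 / ((m : ℝ) + 1) := by
      have : (m : ℝ) ≤ n := by exact_mod_cast hm
      exact one_div_le_one_div_of_le (by positivity) (by linarith)
    linarith

end LongAux

open LongAux

theorem Long : TaskLong := by
  intro D lam a₀ b₀ _ _ hD hanti hl hL n d hd
  obtain ⟨u, v, huv, hlen, hu, hv⟩ := hL n d hd
  have hlam := (hl n).1
  have hcw := cw_pos hl n
  have hpos : 0 < cw lam n * lam n := mul_pos hcw hlam
  have huv' : u ≤ v := by linarith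
  have huD : u ∈ D := huv ⟨le_rfl, huv'⟩
  have hvD : v ∈ D := huv ⟨huv', le_rfl⟩
  have hn1 : (1 : ℝ) / ((n : ℝ) + 1) ≤ 1 := by
    rw [div_le_one (by positivity)]
    have : (0 : ℝ) ≤ n := Nat.cast_nonneg n
    linarith
  have hda : a₀ ≤ d := (hD hd).1
  rcases le_or_gt u d with hud | hdu
  · rcases le_or_gt d v with hdv | hvd
    · refine ⟨u, v, d, huv, huv', ⟨hud, hdv⟩, f_long hl (hD huD).1 huv hlen, ?_⟩
      rw [sub_self, abs_zero]
      positivity
    · -- `v < d`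
      let A : Set ℝ := {p | v ≤ p ∧ p ≤ d ∧ ∃ u' v', p ∈ Icc u' v' ∧ Icc u' v' ⊆ D ∧
        lam n ≤ v' - u'}
      have hvA : v ∈ A := ⟨le_rfl, hvd.le, u, v, ⟨huv', le_rfl⟩, huv, hlen⟩
      have hbdd : BddAbove A := ⟨d, fun p hp => hp.2.1⟩
      have hσv : v ≤ sSup A := le_csSup hbdd hvA
      have hσd : sSup A ≤ d := csSup_le ⟨v, hvA⟩ fun p hp => hp.2.1
      obtain ⟨s, hsA, hs⟩ := exists_lt_of_lt_csSup ⟨v, hvA⟩
        (by linarith : sSup A - cw lam n * lam n / 64 < sSup A)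
      obtain ⟨hvs, hsd, u', v', hs', huv1, hlen'⟩ := hsA
      have hu'v' : u' ≤ v' := by linarith
      have hsσ : s ≤ sSup A := le_csSup hbdd ⟨hvs, hsd, u', v', hs', huv1, hlen'⟩
      have hva : a₀ ≤ v := (hD hvD).1
      refine ⟨u', v', s, huv1, hu'v', hs', f_long hl (hD (huv1 ⟨le_rfl, hu'v'⟩)).1 huv1 hlen', ?_⟩
      have habs : |v - d| = d - v := by
        rw [abs_sub_comm, abs_of_pos (by linarith)]
      rw [habs] at hv
      have hempty := empty (D := D) (x := sSup A) (y := d) hanti hvD hd hσv le_rfl hv (by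
        intro p hp u1 v1 hp1 h5 h6
        have : p ∈ A := ⟨hσv.trans hp.1.le, hp.2.le, u1, v1, hp1, h5, h6⟩
        exact absurd (le_csSup hbdd this) (not_le.2 hp.1))
      have h1 := f_tail (D := D) hl (hva.trans hσv) hσd (by linarith) hempty
      have h2 := f_lip (D := D) hl (hva.trans hvs) hsσ
      have h3 := f_mono (D := D) hl (hva.trans hvs) hsd
      rw [abs_of_nonneg h3]
      linarith
  · -- `d < u`
    let A : Set ℝ := {p | d ≤ p ∧ p ≤ u ∧ ∃ u' v', p ∈ Icc u' v' ∧ Icc u' v' ⊆ D ∧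
      lam n ≤ v' - u'}
    have huA : u ∈ A := ⟨hdu.le, le_rfl, u, v, ⟨le_rfl, huv'⟩, huv, hlen⟩
    have hbdd : BddBelow A := ⟨d, fun p hp => hp.1⟩
    have hιu : sInf A ≤ u := csInf_le hbdd huA
    have hιd : d ≤ sInf A := le_csInf ⟨u, huA⟩ fun p hp => hp.1
    obtain ⟨s, hsA, hs⟩ := exists_lt_of_csInf_lt ⟨u, huA⟩
      (by linarith : sInf A < sInf A + cw lam n * lam n / 64)
    obtain ⟨hds, hsu, u', v', hs', huv1, hlen'⟩ := hsA
    have hu'v' : u' ≤ v' := by linarith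
    have hιs : sInf A ≤ s := csInf_le hbdd ⟨hds, hsu, u', v', hs', huv1, hlen'⟩
    refine ⟨u', v', s, huv1, hu'v', hs', f_long hl (hD (huv1 ⟨le_rfl, hu'v'⟩)).1 huv1 hlen', ?_⟩
    have habs : |u - d| = u - d := abs_of_pos (by linarith)
    rw [habs] at hu
    have hempty := empty (D := D) (x := d) (y := sInf A) hanti hd huD le_rfl hιu hu (by
      intro p hp u1 v1 hp1 h5 h6
      have : p ∈ A := ⟨hp.1.le, hp.2.le.trans hιu, u1, v1, hp1, h5, h6⟩
      exact absurd (csInf_le hbdd this) (not_le.2 hp.2))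
    have h1 := f_tail (D := D) hl hda hιd (by linarith) hempty
    have h2 := f_lip (D := D) hl (hda.trans hιd) hιs
    have h3 := f_mono (D := D) hl hda hds
    rw [abs_sub_comm, abs_of_nonneg h3]
    linarith

end Q292.TS
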