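import Pool.Agent.Q292.TS.Stmts

namespace Q292.TS

open MeasureTheory Set Metric

noncomputable section

theorem Main : TaskMain := by
  intro hSub hCantor hNoInt hF hFinish hPieces hPlace hGlue hDense hLam hMono hLong hClimb hUp
    X hX hXne hXp
  by_cases hint : (interior X).Nonempty
  swap
  · refine hNoInt hSub hCantor X hX hXne hXp ?_
    intro u v huv hsub
    apply hint
    exact ⟨(u + v) / 2, mem_interior.2 ⟨Ioo u v, Ioo_subset_Icc_self.trans hsub, isOpen_Ioo,
      by constructor <;> linarith⟩⟩
  · set D := closure (interior X) with hD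
    have hDX : D ⊆ X := closure_minimal interior_subset hX.isClosed
    have hDne : D.Nonempty := hint.closure
    have hDc : IsCompact D := hX.of_isClosed_subset isClosed_closure hDX
    have hDint : D ⊆ closure (interior D) :=
      closure_mono (interior_maximal subset_closure isOpen_interior)
    obtain ⟨r, hr⟩ := hX.isBounded.subset_closedBall (0 : ℝ)
    have hXr : ∀ z ∈ X, |z| ≤ r := by
      intro z hz
      have := hr hz
      rwa [mem_closedBall, Real.dist_eq, sub_zero] at this
    have hr0 : 0 ≤ r := (abs_nonneg _).trans (hXr _ hXne.some_mem)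
    set a₀ : ℝ := -r - 1 with ha₀
    set b₀ : ℝ := r + 1 with hb₀
    have hXI : X ⊆ Icc a₀ b₀ := by
      intro z hz
      have := abs_le.1 (hXr z hz)
      constructor <;> linarith
    have ha₀X : a₀ ∉ X := by
      intro h
      have := abs_le.1 (hXr _ h)
      linarith
    obtain ⟨x, f, hHF⟩ := hF hLam hMono hLong D a₀ b₀ hDc hDne (hDX.trans hXI) hDint
    obtain ⟨V, hVU, hVd, hVc, hVo, hVi⟩ := hPieces X hX hDne
    have hVsub : ∀ i, V i ⊆ X \ D := by
      intro i
      rw [hVU]
      exact subset_iUnion V i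
    let q : ℕ → ℝ := fun i => by
      classical
      exact if h : (V i).Nonempty then h.some else a₀
    have hqV : ∀ i, (V i).Nonempty → q i ∈ V i := by
      intro i hi
      simp only [q, dif_pos hi]
      exact hi.some_mem
    have hqa : ∀ i, ¬ (V i).Nonempty → q i = a₀ := by
      intro i hi
      simp only [q, dif_neg hi]
    obtain ⟨d, k, t, hd, hk, hdis, hpair⟩ := hPlace hSub D a₀ b₀ x f q hHF hDc hDne
      (hDX.trans hXI) (by
        intro i
        by_cases hi : (V i).Nonempty
        · have := hVsub i (hqV i hi)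
          exact ⟨hXI this.1, this.2⟩
        · rw [hqa i hi]
          refine ⟨⟨le_refl _, by linarith⟩, fun h => ha₀X (hDX h)⟩)
    obtain ⟨X', hX'c, hX'h, hX'e⟩ := hGlue X D V (fun i => tr (t i) (CS x (k i))) f a₀ b₀ q d
      hX hXI hDc hDX hDne hVU hVd hVc hVo hVi hHF.2.1 hHF.2.2.1 (by
        intro i hi
        refine ⟨hqV i hi, (hd i).1, (hd i).2, ?_, fun y hy => ((hk i).2 y hy).2, hdis i⟩
        have hpre : Preperfect (V i) := by
          obtain ⟨U, hU, hVU'⟩ := hVo i
          rw [hVU', inter_comm]
          exact hXp.open_inter hU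
        have hno : ∀ u v, u < v → ¬ Icc u v ⊆ V i := by
          intro u v huv hsub
          have h1 : (u + v) / 2 ∈ interior X :=
            mem_interior.2 ⟨Ioo u v, (Ioo_subset_Icc_self.trans hsub).trans
              ((hVsub i).trans diff_subset), isOpen_Ioo, by constructor <;> linarith⟩
          have h2 : (u + v) / 2 ∈ V i := hsub (by constructor <;> linarith)
          exact (hVsub i h2).2 (subset_closure h1)
        obtain ⟨e1⟩ := hCantor (V i) (hVc i) hi hpre hno
        obtain ⟨e2⟩ := (hSub x hHF.1 (k i)).2.2.2.2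
        have e3 : CS x (k i) ≃ₜ tr (t i) (CS x (k i)) :=
          (Homeomorph.addLeft (t i)).image (CS x (k i))
        exact ⟨e1.symm.trans (e2.trans e3)⟩) hpair
    have hIVT : ∀ u v, u ≤ v → Icc u v ⊆ D → Icc (f u) (f v) ⊆ X' := by
      intro u v huv hsub
      have hc : ContinuousOn f (Icc u v) := hHF.2.2.1.mono ((hsub.trans hDX).trans hXI)
      have := intermediate_value_Icc huv hc
      refine this.trans ?_
      rw [hX'e]
      exact (image_mono hsub).trans subset_union_left
    obtain ⟨d0, hd0⟩ := hDne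
    obtain ⟨u, v, s, huv, huv', hs, h4, _⟩ := hHF.2.2.2 0 d0 hd0
    refine hFinish hSub X X' x (f u) (f v) hHF.1 hX'c hX'h (hIVT u v huv' huv) h4 ?_
    classical
    let P : Set ℝ := ⋃ i, {y | (V i).Nonempty ∧ y ∈ tr (t i) (CS x (k i))}
    have hP : ∀ y ∈ P, ∃ i, (V i).Nonempty ∧ y ∈ tr (t i) (CS x (k i)) := by
      intro y hy
      simpa [P] using hy
    let ix : ℝ → ℕ := fun y => if h : ∃ i, (V i).Nonempty ∧ y ∈ tr (t i) (CS x (k i))
      then h.choose else 0
    have hix : ∀ y ∈ P, (V (ix y)).Nonempty ∧ y ∈ tr (t (ix y)) (CS x (k (ix y))) := by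
      intro y hy
      have h := hP y hy
      simp only [ix, dif_pos h]
      exact h.choose_spec
    refine hDense hSub hClimb hUp X' D a₀ b₀ x f P (fun y => d (ix y)) (fun y => t (ix y))
      (fun y => k (ix y)) hHF (hDX.trans hXI) ?_ ?_ hX'e
    · rw [hX'e]; exact subset_union_left
    · intro y hy
      have h := hix y hy
      refine ⟨(hd _).1, (hk _).1, ((hk _).2 y h.2).1, h.2, ?_⟩
      intro z hz
      rw [hX'e]
      refine Or.inr ?_
      simp only [mem_iUnion, mem_setOf_eq]
      exact ⟨ix y, h.1, hz⟩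

end

end Q292.TS
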