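import Pool.Agent.Q292.TS.Stmts

/-! TaskMono: the map is strictly monotone and Lipschitz. -/

namespace Q292.TS

open MeasureTheory Set Metric

noncomputable section

theorem cw_bound (lam : ℕ → ℝ) (h : ∀ n, 0 < lam n ∧ lam n ≤ 1) (n : ℕ) :
    0 < cw lam n ∧ cw lam n ≤ (1 / 64 : ℝ) ^ n := by
  induction n with
  | zero => simp [cw]
  | succ n ih =>
    obtain ⟨h1, h2⟩ := ih
    obtain ⟨l1, l2⟩ := h n
    constructor
    · show 0 < cw lam n * lam n / 64
      positivity
    · show cw lam n * lam n / 64 ≤ _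
      rw [pow_succ]
      have : cw lam n * lam n ≤ cw lam n * 1 := mul_le_mul_of_nonneg_left l2 h1.le
      linarith

theorem cw_summable (lam : ℕ → ℝ) (h : ∀ n, 0 < lam n ∧ lam n ≤ 1) : Summable (cw lam) :=
  Summable.of_nonneg_of_le (fun n => (cw_bound lam h n).1.le) (fun n => (cw_bound lam h n).2)
    (summable_geometric_of_lt_one (by norm_num) (by norm_num))

/-- the outer measure of `H` in `(a, x]` -/
def gM (H : Set ℝ) (a x : ℝ) : ℝ := (volume (H ∩ Ioc a x)).toReal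

theorem gM_fin (H : Set ℝ) (a x : ℝ) : volume (H ∩ Ioc a x) ≠ ⊤ := by
  refine ((measure_mono inter_subset_right).trans_lt ?_).ne
  rw [Real.volume_Ioc]
  exact ENNReal.ofReal_lt_top

theorem gM_nonneg (H : Set ℝ) (a x : ℝ) : 0 ≤ gM H a x := ENNReal.toReal_nonneg

theorem gM_le (H : Set ℝ) (a x : ℝ) (hx : a ≤ x) : gM H a x ≤ x - a := by
  have h1 : volume (H ∩ Ioc a x) ≤ ENNReal.ofReal (x - a) :=
    (measure_mono inter_subset_right).trans (by rw [Real.volume_Ioc])
  exact ENNReal.toReal_le_of_le_ofReal (by linarith) h1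

theorem gM_add (H : Set ℝ) (a x y : ℝ) (hx : a ≤ x) (hy : x ≤ y) :
    gM H a y = gM H a x + gM H x y := by
  unfold gM
  have h := measure_inter_add_diff (μ := volume) (H ∩ Ioc a y) (measurableSet_Ioc (a := a) (b := x))
  have e1 : H ∩ Ioc a y ∩ Ioc a x = H ∩ Ioc a x := by
    ext z
    simp only [mem_inter_iff, mem_Ioc]
    constructor
    · rintro ⟨⟨a1, a2, a3⟩, a4, a5⟩
      exact ⟨a1, a4, a5⟩
    · rintro ⟨a1, a4, a5⟩
      exact ⟨⟨a1, a4, a5.trans hy⟩, a4, a5⟩
  have e2 : (H ∩ Ioc a y) \ Ioc a x = H ∩ Ioc x y := by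
    ext z
    simp only [mem_inter_iff, mem_diff, mem_Ioc, not_and, not_le]
    constructor
    · rintro ⟨⟨a1, a2, a3⟩, a4⟩
      exact ⟨a1, a4 a2, a3⟩
    · rintro ⟨a1, a4, a5⟩
      exact ⟨⟨a1, lt_of_le_of_lt hx a4, a5⟩, fun _ => a4⟩
  rw [e1, e2] at h
  rw [← h, ENNReal.toReal_add (gM_fin _ _ _) (gM_fin _ _ _)]

theorem gM_pos (H : Set ℝ) (x y a b : ℝ) (hab : a < b) (h1 : Ioo a b ⊆ H) (h2 : Ioo a b ⊆ Ioc x y) :
    0 < gM H x y := by
  unfold gM
  have h3 : volume (Ioo a b) ≤ volume (H ∩ Ioc x y) := measure_mono (subset_inter h1 h2)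
  have h4 : 0 < volume (Ioo a b) := by
    rw [Real.volume_Ioo]
    exact ENNReal.ofReal_pos.mpr (by linarith)
  exact ENNReal.toReal_pos (lt_of_lt_of_le h4 h3).ne' (gM_fin _ _ _)

theorem gM_summable (D : Set ℝ) (lam : ℕ → ℝ) (h : ∀ n, 0 < lam n ∧ lam n ≤ 1) (x y : ℝ)
    (hxy : x ≤ y) : Summable fun n => cw lam n * gM (Hv D lam n) x y :=
  Summable.of_nonneg_of_le (fun n => mul_nonneg (cw_bound lam h n).1.le (gM_nonneg _ _ _))
    (fun n => mul_le_mul_of_nonneg_left (gM_le _ _ _ hxy) (cw_bound lam h n).1.le)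
    ((cw_summable lam h).mul_right (y - x))

theorem fD_eq (D : Set ℝ) (lam : ℕ → ℝ) (a x : ℝ) :
    fD D lam a x = ∑' n, cw lam n * gM (Hv D lam n) a x := rfl

theorem fD_add (D : Set ℝ) (lam : ℕ → ℝ) (h : ∀ n, 0 < lam n ∧ lam n ≤ 1) (a x y : ℝ)
    (hx : a ≤ x) (hxy : x ≤ y) :
    fD D lam a y = fD D lam a x + ∑' n, cw lam n * gM (Hv D lam n) x y := by
  rw [fD_eq, fD_eq, ← (gM_summable D lam h a x hx).tsum_add (gM_summable D lam h x y hxy)]
  refine tsum_congr fun n => ?_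
  rw [gM_add _ a x y hx hxy]
  ring

theorem Mono : TaskMono := by
  intro D lam a₀ b₀ hD hne _ hlam hlong
  have hpos : ∀ x y : ℝ, x < y → 0 < ∑' n, cw lam n * gM (Hv D lam n) x y := by
    intro x y hxy
    obtain ⟨n, a, b, hab, h1, h2⟩ : ∃ (n : ℕ) (a b : ℝ), a < b ∧ Ioo a b ⊆ Hv D lam n ∧
        Ioo a b ⊆ Ioc x y := by
      by_cases hI : Icc x y ⊆ D
      · obtain ⟨n, hn⟩ := exists_nat_one_div_lt (show 0 < (y - x) / 2 by linarith)
        obtain ⟨d, hd⟩ := hne
        obtain ⟨u, v, -, h2, h3, h4⟩ := hlong n d hd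
        have hl : lam n ≤ y - x := by
          have h5 := (abs_lt.mp h3).1
          have h6 := (abs_lt.mp h4).2
          linarith
        refine ⟨n, x, y, hxy, ?_, Ioo_subset_Ioc_self⟩
        intro z hz
        exact Or.inl ⟨x, y, Ioo_subset_Icc_self hz, hI, hl⟩
      · obtain ⟨z, hz, hzD⟩ := not_subset.mp hI
        obtain ⟨ε, hε, hball⟩ := Metric.isOpen_iff.mp hD.isClosed.isOpen_compl z hzD
        have hab : max x (z - ε) < min y (z + ε) := by
          rw [max_lt_iff, lt_min_iff, lt_min_iff]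
          exact ⟨⟨hxy, by linarith [hz.1]⟩, by linarith [hz.2], by linarith⟩
        obtain ⟨n, hn⟩ := exists_nat_one_div_lt (sub_pos.mpr hab)
        refine ⟨n, max x (z - ε), min y (z + ε), hab, ?_, ?_⟩
        · intro w hw
          refine Or.inr ⟨max x (z - ε), min y (z + ε), hw, ?_, hn.le⟩
          rw [Set.disjoint_left]
          intro w' hw' hwD
          refine hball ?_ hwD
          rw [mem_ball, Real.dist_eq, abs_lt]
          have q1 := lt_of_le_of_lt (le_max_right x (z - ε)) hw'.1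
          have q2 := lt_of_lt_of_le hw'.2 (min_le_right y (z + ε))
          constructor <;> linarith
        · intro w hw
          exact ⟨lt_of_le_of_lt (le_max_left x (z - ε)) hw.1,
            (lt_of_lt_of_le hw.2 (min_le_left y (z + ε))).le⟩
    exact (gM_summable D lam hlam x y hxy.le).tsum_pos
      (fun n => mul_nonneg (cw_bound lam hlam n).1.le (gM_nonneg _ _ _)) n
      (mul_pos (cw_bound lam hlam n).1 (gM_pos _ x y a b hab h1 h2))
  have hle : ∀ x y : ℝ, x ≤ y → ∑' n, cw lam n * gM (Hv D lam n) x y ≤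
      (∑' n, cw lam n) * (y - x) := by
    intro x y hxy
    rw [← tsum_mul_right]
    exact (gM_summable D lam hlam x y hxy).tsum_le_tsum
      (fun n => mul_le_mul_of_nonneg_left (gM_le _ _ _ hxy) (cw_bound lam hlam n).1.le)
      ((cw_summable lam hlam).mul_right (y - x))
  have hnn : ∀ x y : ℝ, 0 ≤ ∑' n, cw lam n * gM (Hv D lam n) x y := fun x y =>
    tsum_nonneg fun n => mul_nonneg (cw_bound lam hlam n).1.le (gM_nonneg _ _ _)
  refine ⟨?_, ?_⟩
  · intro x hx y _ hxy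
    rw [fD_add D lam hlam a₀ x y hx.1 hxy.le]
    linarith [hpos x y hxy]
  · have hC : 0 ≤ ∑' n, cw lam n := tsum_nonneg fun n => (cw_bound lam hlam n).1.le
    have key : ∀ x y : ℝ, a₀ ≤ x → x ≤ y → |fD D lam a₀ y - fD D lam a₀ x| ≤
        (∑' n, cw lam n) * (y - x) := by
      intro x y hx hxy
      rw [fD_add D lam hlam a₀ x y hx hxy, add_sub_cancel_left, abs_of_nonneg (hnn x y)]
      exact hle x y hxy
    have hL : LipschitzOnWith ⟨∑' n, cw lam n, hC⟩ (fD D lam a₀) (Icc a₀ b₀) := by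
      refine LipschitzOnWith.of_dist_le_mul fun x hx y hy => ?_
      rw [Real.dist_eq, Real.dist_eq]
      show _ ≤ (∑' n, cw lam n) * |x - y|
      rcases le_total x y with hxy | hxy
      · rw [abs_sub_comm, abs_sub_comm x y, abs_of_nonneg (sub_nonneg.mpr hxy)]
        exact key x y hx.1 hxy
      · rw [abs_of_nonneg (sub_nonneg.mpr hxy)]
        exact key y x hy.1 hxy
    exact hL.continuousOn

end

end Q292.TS
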