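import Pool.Agent.Q292.TS.Stmts

namespace Q292.TS

open MeasureTheory Set Metric

private noncomputable def xx (n : ℕ) : ℝ := (1 / 32 : ℝ) ^ n

private theorem xx_pos (n : ℕ) : 0 < xx n := by unfold xx; positivity

private theorem xx_fast : Fast xx := by
  refine ⟨xx_pos, fun n => ?_⟩
  unfold xx
  rw [pow_succ]
  have : (0 : ℝ) < (1 / 32 : ℝ) ^ n := by positivity
  linarith

private theorem xx_summable : Summable xx := by
  unfold xx
  exact summable_geometric_of_lt_one (by norm_num) (by norm_num)

private noncomputable def KK (i : ℕ) : Set ℝ := {0, xx i}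

private theorem diam_KK (i : ℕ) : diam (KK i) = xx i := by
  unfold KK
  rw [Metric.diam_pair, Real.dist_eq, zero_sub, abs_neg, abs_of_pos (xx_pos i)]

private theorem KK_adm : Adm KK := by
  refine ⟨fun i => ⟨?_, ?_, ?_, ?_⟩, ?_⟩
  · exact ((Set.finite_singleton (xx i)).insert 0).isCompact
  · exact Or.inl rfl
  · intro y hy
    rcases hy with rfl | hy
    · exact le_refl (0 : ℝ)
    · rw [Set.mem_singleton_iff] at hy
      rw [hy]
      exact (xx_pos i).le
  · rw [diam_KK]; exact xx_pos i
  · simp only [diam_KK]
    exact xx_summable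

private theorem sumset_eq : SumSet KK = CS xx 0 := by
  ext s
  constructor
  · rintro ⟨y, hy, hs⟩
    classical
    refine ⟨fun j => decide (y j = xx j), ?_⟩
    have h1 : (fun j => if (decide (y j = xx j)) = true then xx (0 + j) else 0) = y := by
      funext j
      rw [zero_add]
      by_cases h : y j = xx j
      · simp [h]
      · rcases hy j with h2 | h2
        · rw [h2] at h
          simp [h2, h]
        · exact absurd h2 h
    unfold sub
    rw [h1]
    exact hs.tsum_eq
  · rintro ⟨e, rfl⟩
    refine ⟨fun j => if e j then xx (0 + j) else 0, fun j => ?_, ?_⟩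
    · by_cases h : e j
      · simp only [h, if_true, zero_add]
        exact Or.inr rfl
      · simp only [h]
        exact Or.inl rfl
    · unfold sub
      refine Summable.hasSum ?_
      refine Summable.of_nonneg_of_le (fun j => ?_) (fun j => ?_) xx_summable
      · split_ifs
        · exact (xx_pos _).le
        · exact le_refl _
      · split_ifs
        · rw [zero_add]
        · exact (xx_pos _).le

theorem NoInt : TaskNoInt := by
  intro hS hC X hX hne hp hint
  obtain ⟨φ⟩ := (hS xx xx_fast 0).2.2.2.2
  obtain ⟨ψ⟩ := hC X hX hne hp hint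
  refine ⟨KK, KK_adm, ?_⟩
  rw [sumset_eq]
  exact ⟨ψ.symm.trans φ⟩

end Q292.TS
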