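import Pool.Agent.Q292.TS.Stmts

namespace Q292.TS

open MeasureTheory Set Metric

/-- clopen in `X` -/
private def Cl (X S : Set ℝ) : Prop :=
  (∃ U, IsOpen U ∧ S = X ∩ U) ∧ ∃ C, IsClosed C ∧ S = X ∩ C

private theorem Cl.diff {X S T : Set ℝ} (hS : Cl X S) (hT : Cl X T) : Cl X (S \ T) := by
  obtain ⟨⟨U, hU, h1⟩, C, hC, h2⟩ := hS
  obtain ⟨⟨U', hU', h3⟩, C', hC', h4⟩ := hT
  refine ⟨⟨U ∩ C'ᶜ, hU.inter hC'.isOpen_compl, ?_⟩, C ∩ U'ᶜ, hC.inter hU'.isClosed_compl, ?_⟩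
  · ext z
    have e1 : z ∈ S ↔ z ∈ X ∧ z ∈ U := by rw [h1]; rfl
    have e4 : z ∈ T ↔ z ∈ X ∧ z ∈ C' := by rw [h4]; rfl
    simp only [mem_diff, mem_inter_iff, mem_compl_iff, e1, e4]
    tauto
  · ext z
    have e1 : z ∈ S ↔ z ∈ X ∧ z ∈ C := by rw [h2]; rfl
    have e4 : z ∈ T ↔ z ∈ X ∧ z ∈ U' := by rw [h3]; rfl
    simp only [mem_diff, mem_inter_iff, mem_compl_iff, e1, e4]
    tauto

theorem Pieces : TaskPieces := by
  intro X hX hne
  set D := closure (interior X) with hD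
  have hDX : D ⊆ X := closure_minimal interior_subset hX.isClosed
  have key : ∀ x ∈ X \ D, ∃ r s : ℚ, (r : ℝ) < x ∧ x < s ∧ (r : ℝ) ∉ X ∧ (s : ℝ) ∉ X ∧
      ∀ y ∈ X, (r : ℝ) < y → y < s → (s : ℝ) - r ≤ infDist y D := by
    intro x hx
    have hδ : 0 < infDist x D := (isClosed_closure.notMem_iff_infDist_pos hne).mp hx.2
    set δ := infDist x D with hδd
    have gap : ∀ a b : ℝ, a < b → (∀ z ∈ Ioo a b, |x - z| < δ) →
        ∃ q : ℚ, (q : ℝ) ∈ Ioo a b ∧ (q : ℝ) ∉ X := by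
      intro a b hab hz
      have hn : (Ioo a b \ X).Nonempty := by
        by_contra h
        rw [Set.not_nonempty_iff_eq_empty, diff_eq_empty] at h
        have h1 : Ioo a b ⊆ D := (interior_maximal h isOpen_Ioo).trans subset_closure
        have hm : (a + b) / 2 ∈ Ioo a b := ⟨by linarith, by linarith⟩
        have h2 := infDist_le_dist_of_mem (x := x) (h1 hm)
        rw [Real.dist_eq] at h2
        exact absurd (hz _ hm) (not_lt.mpr h2)
      obtain ⟨q, hq⟩ := Rat.denseRange_cast.exists_mem_open (isOpen_Ioo.sdiff hX.isClosed) hn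
      exact ⟨q, hq.1, hq.2⟩
    obtain ⟨r, hr, hrX⟩ := gap (x - δ / 4) x (by linarith) (by
      intro z hz
      rw [abs_lt]
      constructor <;> linarith [hz.1, hz.2])
    obtain ⟨s, hs, hsX⟩ := gap x (x + δ / 4) (by linarith) (by
      intro z hz
      rw [abs_lt]
      constructor <;> linarith [hz.1, hz.2])
    refine ⟨r, s, hr.2, hs.1, hrX, hsX, ?_⟩
    intro y _ hy1 hy2
    have h3 : infDist x D ≤ infDist y D + dist x y := infDist_le_infDist_add_dist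
    have h4 : dist x y ≤ δ / 4 := by
      rw [Real.dist_eq, abs_le]
      constructor <;> linarith [hr.1, hs.2]
    linarith [hr.1, hs.2]
  obtain ⟨g, hg⟩ := exists_surjective_nat (ℚ × ℚ)
  let G : ℚ × ℚ → Prop := fun p => ((p.1 : ℚ) : ℝ) ∉ X ∧ ((p.2 : ℚ) : ℝ) ∉ X ∧
    ∀ y ∈ X, ((p.1 : ℚ) : ℝ) < y → y < ((p.2 : ℚ) : ℝ) → ((p.2 : ℚ) : ℝ) - p.1 ≤ infDist y D
  let W : ℕ → Set ℝ := fun n => {z | z ∈ X ∧ (((g n).1 : ℚ) : ℝ) < z ∧
    z < (((g n).2 : ℚ) : ℝ) ∧ G (g n)}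
  have hW : ∀ n, Cl X (W n) := by
    intro n
    by_cases hG : G (g n)
    · refine ⟨⟨Ioo (((g n).1 : ℚ) : ℝ) (((g n).2 : ℚ) : ℝ), isOpen_Ioo, ?_⟩,
        Icc (((g n).1 : ℚ) : ℝ) (((g n).2 : ℚ) : ℝ), isClosed_Icc, ?_⟩
      · ext z
        exact ⟨fun h => ⟨h.1, h.2.1, h.2.2.1⟩, fun h => ⟨h.1, h.2.1, h.2.2, hG⟩⟩
      · ext z
        refine ⟨fun h => ⟨h.1, h.2.1.le, h.2.2.1.le⟩, fun h => ⟨h.1, ?_, ?_, hG⟩⟩
        · refine lt_of_le_of_ne h.2.1 ?_
          rintro e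
          exact hG.1 (e ▸ h.1)
        · refine lt_of_le_of_ne h.2.2 ?_
          rintro e
          exact hG.2.1 (e ▸ h.1)
    · have : W n = ∅ := by
        ext z
        simp only [mem_empty_iff_false, iff_false]
        exact fun h => hG h.2.2.2
      rw [this]
      exact ⟨⟨∅, isOpen_empty, (inter_empty X).symm⟩, ∅, isClosed_empty, (inter_empty X).symm⟩
  have hV : ∀ n, Cl X (disjointed W n) := fun n =>
    disjointedRec (f := W) (p := Cl X) (fun t i ht => ht.diff (hW i)) (hW n)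
  refine ⟨disjointed W, ?_, disjoint_disjointed W, ?_, fun i => (hV i).1, ?_⟩
  · rw [iUnion_disjointed]
    ext z
    rw [mem_iUnion]
    constructor
    · intro hz
      obtain ⟨r, s, h1, h2, h3, h4, h5⟩ := key z hz
      obtain ⟨n, hn⟩ := hg (r, s)
      refine ⟨n, ?_⟩
      show z ∈ X ∧ (((g n).1 : ℚ) : ℝ) < z ∧ z < (((g n).2 : ℚ) : ℝ) ∧ G (g n)
      rw [hn]
      exact ⟨hz.1, h1, h2, h3, h4, h5⟩
    · rintro ⟨n, h1, h2, h3, h4⟩
      refine ⟨h1, fun hzD => ?_⟩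
      have h5 := h4.2.2 z h1 h2 h3
      rw [infDist_zero_of_mem hzD] at h5
      linarith
  · intro i
    obtain ⟨-, C, hC, h⟩ := hV i
    rw [h]
    exact hX.inter_right hC
  · intro i y hy z hz
    have hy' := disjointed_le W i hy
    have hz' := disjointed_le W i hz
    obtain ⟨h1, h2, h3, h4⟩ := hy'
    obtain ⟨-, h6, h7, -⟩ := hz'
    have h5 := h4.2.2 y h1 h2 h3
    refine le_trans ?_ h5
    rw [abs_le]
    constructor <;> linarith

end Q292.TS
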