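import Pool.Agent.Q292.TS.Stmts

/-! Places for the pieces. -/

namespace Q292.TS

open MeasureTheory Set Metric Filter Topology

namespace PlaceAux

theorem anti {x : ℕ → ℝ} (hx : Fast x) {m n : ℕ} (h : m < n) : 32 * x n ≤ x m := by
  have ha : Antitone x := antitone_nat_of_succ_le fun n => by
    have h1 := hx.1 (n + 1)
    have h2 := hx.2 n
    linarith
  have h1 : x n ≤ x (m + 1) := ha h
  have h2 := hx.2 m
  linarith

theorem tendsto {x : ℕ → ℝ} (hx : Fast x) : Tendsto x atTop (𝓝 0) := by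
  have h1 : ∀ n, x n ≤ x 0 * (1 / 2) ^ n := by
    intro n
    induction n with
    | zero => simp
    | succ n ih =>
      have h2 := hx.2 n
      have h3 := hx.1 n
      have h4 := hx.1 (n + 1)
      rw [pow_succ]
      linarith
  have h2 : Tendsto (fun n : ℕ => x 0 * (1 / 2 : ℝ) ^ n) atTop (𝓝 (x 0 * 0)) :=
    tendsto_const_nhds.mul (tendsto_pow_atTop_nhds_zero_of_lt_one (by norm_num) (by norm_num))
  rw [mul_zero] at h2
  exact squeeze_zero (fun n => (hx.1 n).le) h1 h2

/-- no point of `D` lies strictly between `d` and `q` if `d` is nearest to `q` -/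
theorem no_between {D : Set ℝ} {d q d' : ℝ} (hn : ∀ d' ∈ D, |q - d| ≤ |q - d'|) (hd' : d' ∈ D) :
    ¬ (d < d' ∧ d' < q) ∧ ¬ (q < d' ∧ d' < d) := by
  have h := hn d' hd'
  constructor
  · rintro ⟨h1, h2⟩
    rw [abs_of_pos (by linarith), abs_of_pos (by linarith)] at h
    linarith
  · rintro ⟨h1, h2⟩
    rw [abs_of_neg (by linarith), abs_of_neg (by linarith)] at h
    linarith

theorem scale {x : ℕ → ℝ} (hx : Fast x) {m n : ℕ} {a : ℝ} (h1 : x m ≤ a) (h2 : a ≤ 3 * x m)
    (h3 : x n ≤ a) (h4 : a ≤ 3 * x n) : m = n := by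
  rcases lt_trichotomy m n with h | h | h
  · have := anti hx h
    have := hx.1 m
    have := hx.1 n
    linarith
  · exact h
  · have := anti hx h
    have := hx.1 m
    have := hx.1 n
    linarith

/-- the position of a point of the piece: on the right of `d`, or on the left -/
def Pos (x : ℕ → ℝ) (f : ℝ → ℝ) (d q : ℝ) (k : ℕ) (y : ℝ) : Prop :=
  (d < q ∧ f d + x k ≤ y ∧ y ≤ f d + 3 * x k ∧ y < f q) ∨
    (q < d ∧ y ≤ f d - x k ∧ f d - 3 * x k ≤ y ∧ f q < y)

theorem eq_of_pos {x : ℕ → ℝ} (hx : Fast x) {f : ℝ → ℝ} {D : Set ℝ} {a b : ℝ}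
    (hf : StrictMonoOn f (Icc a b)) (hD : D ⊆ Icc a b) {d q d' q' y : ℝ} {k k' : ℕ}
    (hd : d ∈ D) (hd' : d' ∈ D) (hq : q ∈ Icc a b) (hq' : q' ∈ Icc a b)
    (hn : ∀ c ∈ D, |q - d| ≤ |q - c|) (hn' : ∀ c ∈ D, |q' - d'| ≤ |q' - c|)
    (h : Pos x f d q k y) (h' : Pos x f d' q' k' y) : k = k' := by
  have hk := hx.1 k
  have hk' := hx.1 k'
  have hlt : ∀ {u v : ℝ}, u ∈ Icc a b → v ∈ Icc a b → f u < f v → u < v := fun hu hv h =>
    (hf.lt_iff_lt hu hv).1 h
  rcases h with ⟨h1, h2, h3, h4⟩ | ⟨h1, h2, h3, h4⟩ <;>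
    rcases h' with ⟨g1, g2, g3, g4⟩ | ⟨g1, g2, g3, g4⟩
  · -- both on the right
    have e : d = d' := by
      rcases lt_trichotomy d d' with h | h | h
      · exact absurd ⟨h, hlt (hD hd') hq (by linarith)⟩ (no_between hn hd').1
      · exact h
      · exact absurd ⟨h, hlt (hD hd) hq' (by linarith)⟩ (no_between hn' hd).1
    subst e
    exact scale hx (a := y - f d) (by linarith) (by linarith) (by linarith) (by linarith)
  · -- right and left
    exfalso
    have e1 : d < d' := hlt (hD hd) (hD hd') (by linarith)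
    have e2 : q' < q := hlt hq' hq (by linarith)
    have e3 := hn d' hd'
    have e4 := hn' d hd
    have e5 : q < d' := by
      by_contra hc
      push Not at hc
      rcases eq_or_lt_of_le hc with hc | hc
      · rw [← hc, sub_self, abs_zero] at e3
        have : q - d = 0 := by
          rw [← abs_nonpos_iff, ← hc]
          simpa [hc] using e3
        linarith
      · exact (no_between hn hd').1 ⟨e1, hc⟩
    have e6 : d < q' := by
      by_contra hc
      push Not at hc
      rcases eq_or_lt_of_le hc with hc | hc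
      · rw [hc, sub_self, abs_zero] at e4
        have : d - d' = 0 := by
          rw [← abs_nonpos_iff]
          simpa [hc] using e4
        linarith
      · exact (no_between hn' hd).2 ⟨hc, e1⟩
    rw [abs_of_pos (by linarith), abs_of_neg (by linarith)] at e3
    rw [abs_of_neg (by linarith), abs_of_pos (by linarith)] at e4
    linarith
  · -- left and right
    exfalso
    have e1 : d' < d := hlt (hD hd') (hD hd) (by linarith)
    have e2 : q < q' := hlt hq hq' (by linarith)
    have e3 := hn d' hd'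
    have e4 := hn' d hd
    have e5 : q' < d := by
      by_contra hc
      push Not at hc
      rcases eq_or_lt_of_le hc with hc | hc
      · rw [← hc, sub_self, abs_zero] at e4
        have : d - d' = 0 := by
          rw [← abs_nonpos_iff]
          simpa [hc] using e4
        linarith
      · exact (no_between hn' hd).1 ⟨e1, hc⟩
    have e6 : d' < q := by
      by_contra hc
      push Not at hc
      rcases eq_or_lt_of_le hc with hc | hc
      · rw [hc, sub_self, abs_zero] at e3
        have : d' - d = 0 := by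
          rw [← abs_nonpos_iff]
          simpa [hc] using e3
        linarith
      · exact (no_between hn hd').2 ⟨hc, e1⟩
    rw [abs_of_neg (by linarith), abs_of_pos (by linarith)] at e3
    rw [abs_of_pos (by linarith), abs_of_neg (by linarith)] at e4
    linarith
  · -- both on the left
    have e : d = d' := by
      rcases lt_trichotomy d d' with h | h | h
      · exact absurd ⟨hlt hq' (hD hd) (by linarith), h⟩ (no_between hn' hd).2
      · exact h
      · exact absurd ⟨hlt hq (hD hd') (by linarith), h⟩ (no_between hn hd').2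
    subst e
    exact scale hx (a := f d - y) (by linarith) (by linarith) (by linarith) (by linarith)

theorem not_mem_image {x : ℕ → ℝ} (hx : Fast x) {f : ℝ → ℝ} {D : Set ℝ} {a b : ℝ}
    (hf : StrictMonoOn f (Icc a b)) (hD : D ⊆ Icc a b) {d q y : ℝ} {k : ℕ}
    (hd : d ∈ D) (hq : q ∈ Icc a b) (hn : ∀ c ∈ D, |q - d| ≤ |q - c|)
    (h : Pos x f d q k y) : y ∉ f '' D := by
  rintro ⟨c, hc, rfl⟩
  have hk := hx.1 k
  rcases h with ⟨h1, h2, h3, h4⟩ | ⟨h1, h2, h3, h4⟩
  · exact (no_between hn hc).1 ⟨(hf.lt_iff_lt (hD hd) (hD hc)).1 (by linarith),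
      (hf.lt_iff_lt (hD hc) hq).1 h4⟩
  · exact (no_between hn hc).2 ⟨(hf.lt_iff_lt hq (hD hc)).1 h4,
      (hf.lt_iff_lt (hD hc) (hD hd)).1 (by linarith)⟩

end PlaceAux

open PlaceAux in
theorem Place : TaskPlace := by
  intro hSub D a₀ b₀ x f q hF hDc hDne hDsub hq
  obtain ⟨hx, hf, -, -⟩ := hF
  -- the nearest points
  have hnear : ∀ i, ∃ d ∈ D, infDist (q i) D = dist (q i) d := fun i =>
    hDc.exists_infDist_eq_dist hDne (q i)
  choose d hd hdist using hnear
  have hn : ∀ i, ∀ c ∈ D, |q i - d i| ≤ |q i - c| := by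
    intro i c hc
    rw [← Real.dist_eq, ← Real.dist_eq, ← hdist i]
    exact infDist_le_dist_of_mem hc
  have hne : ∀ i, q i ≠ d i := fun i h => (hq i).2 (h ▸ hd i)
  have hfne : ∀ i, 0 < |f (q i) - f (d i)| := by
    intro i
    rw [abs_pos, sub_ne_zero]
    exact fun h => hne i (hf.injOn (hq i).1 (hDsub (hd i)) h)
  -- the levels
  have hev : ∀ i : ℕ, ∀ᶠ k in atTop, 0 < k ∧ 3 * x k < |f (q i) - f (d i)| := by
    intro i
    have h1 : Tendsto (fun k => 3 * x k) atTop (𝓝 (3 * 0)) := tendsto_const_nhds.mul (tendsto hx)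
    rw [mul_zero] at h1
    exact (eventually_gt_atTop 0).and (h1.eventually_lt_const (hfne i))
  obtain ⟨k, hkm, hk⟩ := extraction_forall_of_eventually hev
  -- the translations
  have hpos : ∀ i, ∃ t : ℝ, ∀ y ∈ tr t (CS x (k i)), Pos x f (d i) (q i) (k i) y := by
    intro i
    have hCS := (hSub x hx (k i)).2.2.1
    have hxk := hx.1 (k i)
    have h3 := (hk i).2
    rcases lt_or_gt_of_ne (hne i) with h | h
    · have hlt : f (q i) < f (d i) := hf (hq i).1 (hDsub (hd i)) h
      rw [abs_of_neg (by linarith)] at h3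
      refine ⟨f (d i) - 3 * x (k i), ?_⟩
      rintro y ⟨c, hc, rfl⟩
      obtain ⟨c1, c2⟩ := hCS hc
      right
      refine ⟨h, ?_, ?_, ?_⟩ <;> dsimp only <;> linarith
    · have hlt : f (d i) < f (q i) := hf (hDsub (hd i)) (hq i).1 h
      rw [abs_of_pos (by linarith)] at h3
      refine ⟨f (d i) + x (k i), ?_⟩
      rintro y ⟨c, hc, rfl⟩
      obtain ⟨c1, c2⟩ := hCS hc
      left
      refine ⟨h, ?_, ?_, ?_⟩ <;> dsimp only <;> linarith
  choose t ht using hpos
  refine ⟨d, k, t, fun i => ⟨hd i, ?_⟩, fun i => ⟨(hk i).1, fun y hy => ?_⟩, fun i => ?_, ?_⟩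
  · rw [hdist i, Real.dist_eq]
  · have hxk := hx.1 (k i)
    have h3 := (hk i).2
    have h1 : |y - f (d i)| ≤ 3 * x (k i) := by
      rcases ht i y hy with ⟨h1, h2, h3, h4⟩ | ⟨h1, h2, h3, h4⟩
      · rw [abs_of_nonneg (by linarith)]
        linarith
      · rw [abs_of_nonpos (by linarith)]
        linarith
    exact ⟨h1, h1.trans h3.le⟩
  · rw [Set.disjoint_left]
    intro y hy
    exact not_mem_image hx hf hDsub (hd i) (hq i).1 (hn i) (ht i y hy)
  · intro i j hij
    show Disjoint (tr (t i) (CS x (k i))) (tr (t j) (CS x (k j)))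
    rw [Set.disjoint_left]
    intro y hy hy'
    exact hij (hkm.injective (eq_of_pos hx hf hDsub (hd i) (hd j) (hq i).1 (hq j).1 (hn i) (hn j)
      (ht i y hy) (ht j y hy')))

end Q292.TS
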