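import Mathlib
import Pool.Agent.Q292.TS.Stmts

set_option autoImplicit false

namespace Q292.TS

open MeasureTheory Set Metric

private theorem fast_geom {x : ℕ → ℝ} (hx : Fast x) (k j : ℕ) :
    x (k + j) ≤ x k * (1 / 2) ^ j := by
  induction j with
  | zero => simp
  | succ j ih =>
    have h1 := hx.2 (k + j)
    have h2 := hx.1 (k + j + 1)
    have h3 : x (k + (j + 1)) ≤ x (k + j) * (1 / 2) := by
      rw [← add_assoc]
      linarith
    calc x (k + (j + 1)) ≤ x (k + j) * (1 / 2) := h3
      _ ≤ (x k * (1 / 2) ^ j) * (1 / 2) := by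
        apply mul_le_mul_of_nonneg_right ih (by norm_num)
      _ = x k * (1 / 2) ^ (j + 1) := by rw [pow_succ]; ring

private theorem fast_summable {x : ℕ → ℝ} (_hx : Fast x) (k : ℕ) :
    Summable fun j => x k * (1 / 2 : ℝ) ^ j :=
  (summable_geometric_of_lt_one (by norm_num) (by norm_num)).mul_left _

private theorem term_bound {x : ℕ → ℝ} (hx : Fast x) (k : ℕ) (e : ℕ → Bool) (j : ℕ) :
    ‖(if e j then x (k + j) else 0 : ℝ)‖ ≤ x k * (1 / 2) ^ j := by
  have h0 := hx.1 (k + j)
  have h1 := fast_geom hx k j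
  have h2 := hx.1 k
  split_ifs
  · rw [Real.norm_eq_abs, abs_of_pos h0]
    exact h1
  · rw [norm_zero]
    positivity

private theorem term_summable {x : ℕ → ℝ} (hx : Fast x) (k : ℕ) (e : ℕ → Bool) :
    Summable fun j => (if e j then x (k + j) else 0 : ℝ) :=
  Summable.of_norm_bounded (fast_summable hx k) (term_bound hx k e)

private theorem sub_nonneg' {x : ℕ → ℝ} (hx : Fast x) (k : ℕ) (e : ℕ → Bool) :
    0 ≤ sub x k e := by
  refine tsum_nonneg fun j => ?_
  have h0 := hx.1 (k + j)
  split_ifs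
  · exact h0.le
  · exact le_refl 0

private theorem sub_le' {x : ℕ → ℝ} (hx : Fast x) (k : ℕ) (e : ℕ → Bool) :
    sub x k e ≤ 2 * x k := by
  have h := Summable.tsum_le_tsum (f := fun j => (if e j then x (k + j) else 0 : ℝ))
    (g := fun j => x k * (1 / 2 : ℝ) ^ j)
    (fun j => (le_abs_self _).trans (term_bound hx k e j)) (term_summable hx k e)
    (fast_summable hx k)
  have h2 : ∑' j : ℕ, x k * (1 / 2 : ℝ) ^ j = 2 * x k := by
    rw [tsum_mul_left, tsum_geometric_of_lt_one (by norm_num) (by norm_num)]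
    norm_num
    ring
  rw [h2] at h
  exact h

private theorem sub_succ' {x : ℕ → ℝ} (hx : Fast x) (k : ℕ) (e : ℕ → Bool) :
    sub x k e = (if e 0 then x k else 0) + sub x (k + 1) (fun j => e (j + 1)) := by
  unfold sub
  rw [(term_summable hx k e).tsum_eq_zero_add]
  congr 1
  refine tsum_congr fun j => ?_
  rw [show k + (j + 1) = k + 1 + j by ring]

private theorem sub_inj_aux {x : ℕ → ℝ} (hx : Fast x) (n : ℕ) :
    ∀ (k : ℕ) (e e' : ℕ → Bool), sub x k e = sub x k e' → e n = e' n ∧
      sub x (k + 1) (fun j => e (j + 1)) = sub x (k + 1) (fun j => e' (j + 1)) := by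
  have h0 : ∀ (k : ℕ) (e e' : ℕ → Bool), sub x k e = sub x k e' → e 0 = e' 0 ∧
      sub x (k + 1) (fun j => e (j + 1)) = sub x (k + 1) (fun j => e' (j + 1)) := by
    intro k e e' h
    rw [sub_succ' hx k e, sub_succ' hx k e'] at h
    have a1 := sub_nonneg' hx (k + 1) (fun j => e (j + 1))
    have a2 := sub_nonneg' hx (k + 1) (fun j => e' (j + 1))
    have a3 := sub_le' hx (k + 1) (fun j => e (j + 1))
    have a4 := sub_le' hx (k + 1) (fun j => e' (j + 1))
    have a5 := hx.2 k
    have a6 := hx.1 (k + 1)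
    cases h1 : e 0 <;> cases h2 : e' 0 <;> simp only [h1, h2, if_true, if_false, zero_add,
      Bool.false_eq_true] at h ⊢
    · exact ⟨trivial, h⟩
    · exfalso; linarith
    · exfalso; linarith
    · exact ⟨trivial, by linarith⟩
  induction n with
  | zero => exact h0
  | succ n ih =>
    intro k e e' h
    have h1 := h0 k e e' h
    exact ⟨(ih (k + 1) _ _ h1.2).1, h1.2⟩

private theorem sub_inj {x : ℕ → ℝ} (hx : Fast x) (k : ℕ) : Function.Injective (sub x k) :=
  fun e e' h => funext fun n => (sub_inj_aux hx n k e e' h).1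

private theorem sub_cont {x : ℕ → ℝ} (hx : Fast x) (k : ℕ) : Continuous (sub x k) := by
  refine continuous_tsum (u := fun j => x k * (1 / 2 : ℝ) ^ j) (fun j => ?_) (fast_summable hx k)
    (fun j e => term_bound hx k e j)
  have h : Continuous fun b : Bool => (if b then x (k + j) else 0 : ℝ) := continuous_of_discreteTopology
  exact h.comp (continuous_apply j)

theorem Sub : TaskSub := by
  intro x hx k
  refine ⟨isCompact_range (sub_cont hx k), ?_, ?_, ?_, ?_⟩
  · exact ⟨fun _ => false, by simp [sub]⟩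
  · rintro _ ⟨e, rfl⟩
    exact ⟨sub_nonneg' hx k e, sub_le' hx k e⟩
  · ext y
    constructor
    · rintro ⟨e, rfl⟩
      rw [sub_succ' hx k e]
      cases h : e 0
      · left
        exact ⟨fun j => e (j + 1), by simp⟩
      · right
        exact ⟨sub x (k + 1) (fun j => e (j + 1)), ⟨_, rfl⟩, by simp⟩
    · rintro (⟨e, rfl⟩ | ⟨_, ⟨e, rfl⟩, rfl⟩)
      · refine ⟨fun j => Nat.casesOn j false e, ?_⟩
        rw [sub_succ' hx]
        simp
      · refine ⟨fun j => Nat.casesOn j true e, ?_⟩
        rw [sub_succ' hx]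
        simp
  · have hc : Continuous (Equiv.ofInjective (sub x k) (sub_inj hx k)) :=
      Continuous.subtype_mk (sub_cont hx k) _
    exact ⟨Continuous.homeoOfEquivCompactToT2 hc⟩

end Q292.TS
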