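import Pool.Agent.Q292.TS.Stmts

/-! MP_8027ba_an: one step up. -/

namespace Q292.TS

open Set

theorem Up : TaskUp := by
  intro hSub x X' k t y u v s hF hX hy huv hlen hs hys
  obtain ⟨-, -, -, hun, -⟩ := hSub x hF k
  obtain ⟨-, -, hI, -, -⟩ := hSub x hF (k + 1)
  have hx : 0 < x k := hF.1 k
  have hx1 : 32 * x (k + 1) ≤ x k := hF.2 k
  obtain ⟨a, ha, hya⟩ := hy
  have hya' : t + a = y := hya
  have ha0 := (hI ha).1
  have ha1 := (hI ha).2
  obtain ⟨h1, h2⟩ := abs_le.mp hys
  obtain ⟨hs1, hs2⟩ := hs
  rcases le_total (2 * x k) (v - s) with hc | hc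
  · refine ⟨t, ?_, ?_⟩
    · rintro z ⟨b, hb, rfl⟩
      rw [hun] at hb
      rcases hb with hb | ⟨c, hc', rfl⟩
      · exact hX ⟨b, hb, rfl⟩
      · apply huv
        have h3 := (hI hc').1
        have h4 := (hI hc').2
        constructor
        · show u ≤ t + (x k + c)
          linarith
        · show t + (x k + c) ≤ v
          linarith
    · refine ⟨a, ?_, hya⟩
      rw [hun]
      exact Or.inl ha
  · refine ⟨t - x k, ?_, ?_⟩
    · rintro z ⟨b, hb, rfl⟩
      rw [hun] at hb
      rcases hb with hb | ⟨c, hc', rfl⟩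
      · apply huv
        have h3 := (hI hb).1
        have h4 := (hI hb).2
        constructor
        · show u ≤ t - x k + b
          linarith
        · show t - x k + b ≤ v
          linarith
      · refine hX ⟨c, hc', ?_⟩
        show t + c = t - x k + (x k + c)
        ring
    · refine ⟨x k + a, ?_, ?_⟩
      · rw [hun]
        exact Or.inr ⟨a, ha, rfl⟩
      · show t - x k + (x k + a) = y
        linarith

end Q292.TS
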